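import Pool.Agent.Lib.MP_ae0f86_nt.S.Stm

/-!
# MP_ae0f86_nt : objects of rank at most one
-/

set_option autoImplicit false

open CategoryTheory CategoryTheory.Limits Opposite MonoidalCategory

universe v u

namespace Pool.Agent.Lib.MP_ae0f86_nt

noncomputable section

attribute [local instance] CategoryTheory.Abelian.hasFiniteBiproducts

section Main

variable {A : Type u} [Category.{v} A] [Abelian A] [Linear ℚ A] [MonoidalCategory A]
  [SymmetricCategory A] [RigidCategory A] {HdR : A ⥤ ModuleCat.{0} QBar}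
  {HB : A ⥤ ModuleCat.{0} ℚ} [FibreFunctor HdR] [FibreFunctor HB]

omit [Linear ℚ A] [RigidCategory A] in
theorem rk_unit : Module.finrank ℚ (HB.obj (𝟙_ A)) = 1 := by
  have hb : Function.Bijective (LinearMap.toSpanSingleton ℚ (HB.obj (𝟙_ A))
      (FibreFunctor.one (H := HB))) := FibreFunctor.one_bij
  have e := LinearEquiv.ofBijective _ hb
  rw [← e.finrank_eq, Module.finrank_self]

omit [Linear ℚ A] [RigidCategory A] in
theorem rk_tensor (X Y : A) : Module.finrank ℚ (HB.obj (X ⊗ Y)) =
    Module.finrank ℚ (HB.obj X) * Module.finrank ℚ (HB.obj Y) := by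
  have e := LinearEquiv.ofBijective _ (FibreFunctor.bij (H := HB) X Y)
  rw [← e.finrank_eq, Module.finrank_tensorProduct]

omit [Linear ℚ A] [RigidCategory A] in
theorem rk_tpow (T : A) (h : Module.finrank ℚ (HB.obj T) ≤ 1) (n : ℕ) :
    Module.finrank ℚ (HB.obj (tpow T n)) ≤ 1 := by
  induction n with
  | zero =>
    change Module.finrank ℚ (HB.obj (𝟙_ A)) ≤ 1
    rw [rk_unit]
  | succ n ih =>
    change Module.finrank ℚ (HB.obj (tpow T n ⊗ T)) ≤ 1
    rw [rk_tensor]
    calc _ ≤ 1 * 1 := Nat.mul_le_mul ih h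
      _ = 1 := rfl

omit [Linear ℚ A] [RigidCategory A] in
/-- The rank zero case. -/
theorem rk_zero (c : Comparison HdR HB) (N : A) (h : Module.finrank ℚ (HB.obj N) = 0) :
    independent c N = expected HB N := by
  have hs : Subsingleton (HB.obj N) := Module.finrank_zero_iff.1 h
  have e1 : expected HB N = 0 := by
    have : Subsingleton (EndBetti HB N) := by
      refine ⟨fun x y => Subtype.ext (LinearMap.ext fun z => Subsingleton.elim _ _)⟩
    exact Module.finrank_zero_of_subsingleton
  have e2 : Submodule.span QBar (c.Per N) = ⊥ := by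
    rw [Submodule.span_eq_bot]
    rintro z ⟨ω, σ, rfl⟩
    have hσ : σ = 0 := LinearMap.ext fun x => by rw [Subsingleton.elim x 0, map_zero, map_zero]
    rw [hσ]
    exact map_zero _
  rw [e1]
  unfold independent
  rw [e2, finrank_bot]

omit [Linear ℚ A] [RigidCategory A] in
/-- The rank one case. -/
theorem rk_onecase (c : Comparison HdR HB) (N : A) (h : Module.finrank ℚ (HB.obj N) = 1) :
    independent c N = expected HB N := by
  have hd : Module.finrank QBar (HdR.obj N) = 1 := by
    rw [p_rank c N, h]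
  have hb : Module.finrank ℚ (BDual HB N) = 1 := by
    rw [Subspace.dual_finrank_eq, h]
  obtain ⟨ω₀, hω₀, hω⟩ := finrank_eq_one_iff'.1 hd
  obtain ⟨σ₀, hσ₀, hσ⟩ := finrank_eq_one_iff'.1 hb
  have hz : ∀ (ω : HdR.obj N) (σ : BDual HB N), ∃ a : QBar, c.val ω σ = a • c.val ω₀ σ₀ := by
    intro ω σ
    obtain ⟨a, rfl⟩ := hω ω
    obtain ⟨q, rfl⟩ := hσ σ
    refine ⟨a * (q : QBar), ?_⟩
    have h1 : c.val (a • ω₀) (q • σ₀) = a • ((q : ℚ) • c.val ω₀ σ₀) := by
      change c.per N (a • ω₀) (q • σ₀) = _
      rw [map_smul (c.per N), LinearMap.smul_apply, map_smul (c.per N ω₀)]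
    rw [h1, mul_smul]
    congr 1
  have hne : c.val ω₀ σ₀ ≠ 0 := by
    intro h0
    have hper : c.per N = 0 := by
      apply LinearMap.ext
      intro ω
      apply LinearMap.ext
      intro σ
      obtain ⟨a, ha⟩ := hz ω σ
      rw [h0, smul_zero] at ha
      exact ha
    have hsurj := (c.bij N).2
    rw [hper] at hsurj
    have h1 : ∀ f : BDual HB N →ₗ[ℚ] ℂ, f = 0 := by
      intro f
      obtain ⟨x, hx⟩ := hsurj f
      rw [← hx]
      simp
    have e := (Module.finBasisOfFinrankEq ℚ (BDual HB N) hb)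
    have h2 := h1 (e.constr ℚ (fun _ => (1 : ℂ)))
    have h3 := congrArg (fun f : BDual HB N →ₗ[ℚ] ℂ => f (e 0)) h2
    simp at h3
  have e1 : Submodule.span QBar (c.Per N) = Submodule.span QBar {c.val ω₀ σ₀} := by
    apply le_antisymm
    · rw [Submodule.span_le]
      rintro z ⟨ω, σ, rfl⟩
      obtain ⟨a, ha⟩ := hz ω σ
      rw [ha]
      exact Submodule.smul_mem _ _ (Submodule.mem_span_singleton_self _)
    · rw [Submodule.span_le, Set.singleton_subset_iff]
      exact Submodule.subset_span ⟨ω₀, σ₀, rfl⟩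
  have e2 : independent c N = 1 := by
    unfold independent
    rw [e1, finrank_span_singleton hne]
  have hE : Module.finrank ℚ (Module.End ℚ (HB.obj N)) = 1 := by
    rw [Module.finrank_linearMap, h]
  have e3 : expected HB N ≤ 1 := by
    unfold expected
    rw [← hE]
    exact Submodule.finrank_le _
  have e4 : 0 < expected HB N := by
    unfold expected
    have hne1 : (1 : Module.End ℚ (HB.obj N)) ≠ 0 := by
      intro h0
      obtain ⟨x, hx, _⟩ := finrank_eq_one_iff'.1 h
      have h5 := LinearMap.congr_fun h0 x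
      exact hx h5
    have : Nontrivial (EndBetti HB N) := by
      refine ⟨⟨⟨1, ?_⟩, 0, ?_⟩⟩
      · intro n U f m hm
        simpa using hm
      · intro h0
        exact hne1 (congrArg Subtype.val h0)
    exact Module.finrank_pos
  rw [e2]
  omega

omit [Linear ℚ A] [RigidCategory A] in
/-- Piece [SI rk]. -/
theorem p_sirk (c : Comparison HdR HB) : S_sirk c := by
  intro T hT n
  have h := rk_tpow (HB := HB) T hT n
  rcases Nat.lt_or_ge (Module.finrank ℚ (HB.obj (tpow T n))) 1 with h1 | h1
  · exact rk_zero c _ (by omega)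
  · exact rk_onecase c _ (by omega)

end Main

end

end Pool.Agent.Lib.MP_ae0f86_nt
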