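import Pool.Agent.Lib.MP_ae0f86_nt.S.Stm

set_option autoImplicit false

/-!
# MP_ae0f86_nt : duals of tensor products
-/

open CategoryTheory CategoryTheory.Limits Opposite MonoidalCategory

universe v u

namespace Pool.Agent.Lib.MP_ae0f86_nt

theorem p_sidual (A : Type u) [Category.{v} A] [Abelian A] [MonoidalCategory A]
    [SymmetricCategory A] [RigidCategory A] : S_sidual A := by
  refine ⟨fun X Y => ⟨?_⟩, ⟨?_⟩, fun X Y h => ?_⟩
  · exact (rightDualIso (HasRightDual.exact (X := X ⊗ Y))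
      (ExactPairing.tensor (X₁ := X) (X₂ := Y) (Y₁ := Xᘁ) (Y₂ := Yᘁ))) ≪≫ β_ (Yᘁ) (Xᘁ)
  · exact rightDualIso (HasRightDual.exact (X := 𝟙_ A)) exactPairingUnit
  · obtain ⟨i⟩ := h
    exact ⟨rightDualIso (HasRightDual.exact (X := X)) (exactPairingCongrLeft (Y := Yᘁ) i)⟩

end Pool.Agent.Lib.MP_ae0f86_nt
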