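import Pool.Agent.Lib.MP_ae0f86_nt.S.Stm

/-!
# MP_ae0f86_nt : single integrals, piece emb (invariants give split copies of the unit)
-/

set_option autoImplicit false

open CategoryTheory CategoryTheory.Limits Opposite MonoidalCategory

universe v u

namespace Pool.Agent.Lib.MP_ae0f86_nt

noncomputable section

attribute [local instance] CategoryTheory.Abelian.hasFiniteBiproducts

variable {A : Type u} [Category.{v} A] [Abelian A] [Linear ℚ A] [MonoidalCategory A]
  [SymmetricCategory A] [RigidCategory A] {HB : A ⥤ ModuleCat.{0} ℚ} [FibreFunctor HB]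

omit [Linear ℚ A] [RigidCategory A] in
private theorem emb_mono (U : A) (r : ℕ) (i : Fin r → (𝟙_ A ⟶ U))
    (hi : LinearIndependent ℚ
      (fun a => (HB.map (i a)).hom (FibreFunctor.one : HB.obj (𝟙_ A)))) :
    Mono (biproduct.desc i) := by
  apply HB.mono_of_mono_map
  rw [ModuleCat.mono_iff_injective]
  refine (injective_iff_map_eq_zero (HB.map (biproduct.desc i)).hom).2 fun x hx => ?_
  -- the coordinates of `x`
  have hc : ∀ a : Fin r, ∃ c : ℚ, c • (FibreFunctor.one : HB.obj (𝟙_ A)) =
      (HB.map (biproduct.π (fun _ : Fin r => 𝟙_ A) a)).hom x := fun a =>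
    FibreFunctor.one_bij.2 _
  choose c hc using hc
  have hsum : x = ∑ a, (HB.map (biproduct.ι (fun _ : Fin r => 𝟙_ A) a)).hom
      ((HB.map (biproduct.π (fun _ : Fin r => 𝟙_ A) a)).hom x) := by
    have h1 : HB.map (𝟙 (⨁ fun _ : Fin r => 𝟙_ A)) =
        ∑ a, HB.map (biproduct.π (fun _ : Fin r => 𝟙_ A) a) ≫
          HB.map (biproduct.ι (fun _ : Fin r => 𝟙_ A) a) := by
      rw [← biproduct.total (f := fun _ : Fin r => 𝟙_ A), Functor.map_sum]
      simp only [Functor.map_comp]
    rw [CategoryTheory.Functor.map_id] at h1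
    have h3 := congrArg (fun f => f.hom x) h1
    simp only [ModuleCat.hom_id, LinearMap.id_apply] at h3
    refine h3.trans ?_
    rw [ModuleCat.hom_sum, LinearMap.sum_apply]
    rfl
  have h2 : ∀ a : Fin r, ∀ y, (HB.map (biproduct.desc i)).hom
      ((HB.map (biproduct.ι (fun _ : Fin r => 𝟙_ A) a)).hom y) = (HB.map (i a)).hom y := by
    intro a y
    have h3 := congrArg (fun f => (HB.map f).hom y) (biproduct.ι_desc i a)
    simp only [Functor.map_comp, ModuleCat.hom_comp, LinearMap.comp_apply] at h3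
    exact h3
  have h4 : ∑ a, c a • (HB.map (i a)).hom (FibreFunctor.one : HB.obj (𝟙_ A)) = 0 := by
    have h6 := congrArg (HB.map (biproduct.desc i)).hom hsum
    rw [hx, map_sum] at h6
    refine Eq.trans ?_ h6.symm
    refine Finset.sum_congr rfl fun a _ => ?_
    rw [h2, ← hc a, map_smul]
  have h5 := Fintype.linearIndependent_iff.1 hi c h4
  rw [hsum]
  refine Finset.sum_eq_zero fun a _ => ?_
  rw [← hc a, h5 a, zero_smul, map_zero]

omit [Linear ℚ A] in
theorem p_siemb : S_siemb HB := by
  intro M hss U hU r i hi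
  have hm : Mono (biproduct.desc i) := emb_mono U r i hi
  obtain ⟨ρ, hρ⟩ := hss U _ (biproduct.desc i) hm hU
  refine ⟨fun b => ρ ≫ biproduct.π (fun _ : Fin r => 𝟙_ A) b, fun a b => ?_⟩
  have h1 : i a = biproduct.ι (fun _ : Fin r => 𝟙_ A) a ≫ biproduct.desc i :=
    (biproduct.ι_desc i a).symm
  rw [h1, Category.assoc, ← Category.assoc (biproduct.desc i), hρ, Category.id_comp,
    biproduct.ι_π]
  split_ifs <;> rfl

end

end Pool.Agent.Lib.MP_ae0f86_nt
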