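import Pool.Agent.Lib.MP_ae0f86_nt.S.Stm

/-!
# MP_ae0f86_nt : piece [SI iso]

The isomorphism classes of objects form a commutative monoid, in which the duality is a
homomorphism.
-/

set_option autoImplicit false

open CategoryTheory CategoryTheory.Limits Opposite MonoidalCategory

universe v u

namespace Pool.Agent.Lib.MP_ae0f86_nt

noncomputable section

section Monoid

variable (A : Type u) [Category.{v} A]

/-- The isomorphism classes. -/
def iso_Cls : Type u := Quotient (isIsomorphicSetoid A)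

variable {A}

/-- The class of an object. -/
def iso_cls (X : A) : iso_Cls A := Quotient.mk (isIsomorphicSetoid A) X

lemma iso_cls_eq {X Y : A} : iso_cls X = iso_cls Y ↔ Nonempty (X ≅ Y) := by
  exact Quotient.eq (r := isIsomorphicSetoid A)

variable [MonoidalCategory A] [SymmetricCategory A]

/-- The product of classes. -/
def iso_mul : iso_Cls A → iso_Cls A → iso_Cls A :=
  Quotient.map₂ (fun X Y : A => X ⊗ Y) (by
    intro X X' hX Y Y' hY
    obtain ⟨e⟩ : Nonempty (X ≅ X') := hX
    obtain ⟨f⟩ : Nonempty (Y ≅ Y') := hY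
    exact ⟨e ⊗ᵢ f⟩)

lemma iso_mul_cls (X Y : A) : iso_mul (iso_cls X) (iso_cls Y) = iso_cls (X ⊗ Y) := rfl

lemma iso_ind {P : iso_Cls A → Prop} (h : ∀ X : A, P (iso_cls X)) (x : iso_Cls A) : P x :=
  Quotient.ind h x

instance iso_monoid : CommMonoid (iso_Cls A) where
  mul := iso_mul
  one := iso_cls (𝟙_ A)
  mul_assoc := by
    intro x y z
    induction x using iso_ind with | _ X => ?_
    induction y using iso_ind with | _ Y => ?_
    induction z using iso_ind with | _ Z => ?_
    exact iso_cls_eq.2 ⟨α_ X Y Z⟩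
  one_mul := by
    intro x
    induction x using iso_ind with | _ X => ?_
    exact iso_cls_eq.2 ⟨λ_ X⟩
  mul_one := by
    intro x
    induction x using iso_ind with | _ X => ?_
    exact iso_cls_eq.2 ⟨ρ_ X⟩
  mul_comm := by
    intro x y
    induction x using iso_ind with | _ X => ?_
    induction y using iso_ind with | _ Y => ?_
    exact iso_cls_eq.2 ⟨β_ X Y⟩

lemma iso_cls_tensor (X Y : A) : iso_cls (X ⊗ Y) = iso_cls X * iso_cls Y := rfl

lemma iso_cls_one : iso_cls (𝟙_ A) = 1 := rfl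

lemma iso_cls_tpow (X : A) (n : ℕ) : iso_cls (tpow X n) = iso_cls X ^ n := by
  induction n with
  | zero => rw [pow_zero]; rfl
  | succ n ih => rw [pow_succ, ← ih]; rfl

end Monoid

variable {A : Type u} [Category.{v} A] [Abelian A] [MonoidalCategory A] [SymmetricCategory A]
  [RigidCategory A]

lemma iso_cls_dual_pow (h : S_sidual A) (X : A) (n : ℕ) :
    iso_cls ((tpow X n)ᘁ) = iso_cls (Xᘁ) ^ n := by
  obtain ⟨h1, h2, -⟩ := h
  induction n with
  | zero =>
    rw [pow_zero]
    have e : ((tpow X 0)ᘁ : A) ≅ 𝟙_ A :=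
      rightDualIso (RightRigidCategory.rightDual (tpow X 0)).exact
        (inferInstanceAs (ExactPairing (𝟙_ A) (𝟙_ A)))
    exact iso_cls_eq.2 ⟨e⟩
  | succ n ih =>
    rw [pow_succ, ← ih, ← iso_cls_tensor]
    exact iso_cls_eq.2 (h1 (tpow X n) X)

/-- [SI iso] -/
theorem p_siiso : S_sidual A → S_siiso A := by
  intro h T L w e
  have e' : iso_cls T = iso_cls (Tᘁ) * iso_cls L ^ w := by
    rw [← iso_cls_tpow, ← iso_cls_tensor]
    exact iso_cls_eq.2 e
  have k : ∀ n, iso_cls (Tᘁ) ^ n * iso_cls L ^ (w * n) = iso_cls T ^ n := by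
    intro n
    rw [pow_mul, ← mul_pow, ← e']
  refine ⟨fun n => ?_, fun a b => ?_⟩
  · rw [← iso_cls_eq]
    simp only [iso_cls_tensor, iso_cls_tpow, iso_cls_dual_pow h]
    rw [mul_assoc, k, two_mul, pow_add]
  · rw [← iso_cls_eq]
    simp only [iso_cls_tensor, iso_cls_tpow, iso_cls_dual_pow h]
    have : iso_cls T ^ a * iso_cls (Tᘁ) ^ a * (iso_cls T ^ b * iso_cls (Tᘁ) ^ b) *
        iso_cls L ^ (w * (a + b)) =
        iso_cls T ^ a * iso_cls T ^ b * (iso_cls (Tᘁ) ^ (a + b) * iso_cls L ^ (w * (a + b))) := by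
      rw [pow_add (iso_cls (Tᘁ))]
      ac_rfl
    rw [this, k, ← pow_add, two_mul, pow_add (iso_cls T) (a + b) (a + b)]

end

end Pool.Agent.Lib.MP_ae0f86_nt
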