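import Pool.Agent.Lib.MP_ae0f86_nt.S.Stm

/-!
# MP_ae0f86_nt : single integrals, piece name
-/

set_option autoImplicit false

open CategoryTheory CategoryTheory.Limits Opposite MonoidalCategory

universe v u

namespace Pool.Agent.Lib.MP_ae0f86_nt

noncomputable section

attribute [local instance] CategoryTheory.Abelian.hasFiniteBiproducts

variable {A : Type u} [Category.{v} A] [Abelian A] [Linear ℚ A] [MonoidalCategory A]
  [SymmetricCategory A] [RigidCategory A] {HB : A ⥤ ModuleCat.{0} ℚ} [FibreFunctor HB]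

open scoped TensorProduct in
theorem name_zero {V W I : Type} [AddCommGroup V] [Module ℚ V] [AddCommGroup W] [Module ℚ W]
    [Fintype I] (b : Module.Basis I ℚ W) (x : I → V)
    (h : ∑ k, x k ⊗ₜ[ℚ] b k = 0) : ∀ k, x k = 0 := by
  classical
  intro k
  have h1 := congrArg (fun t => (TensorProduct.rid ℚ V) ((LinearMap.lTensor V (b.coord k)) t)) h
  simp only [map_sum, LinearMap.lTensor_tmul, TensorProduct.rid_tmul, map_zero,
    Module.Basis.coord_apply, Module.Basis.repr_self, Finsupp.single_apply, ite_smul, one_smul,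
    zero_smul] at h1
  simpa using h1

omit [Linear ℚ A] in
theorem p_siname : S_siname HB := by
  intro N r f hf
  refine ⟨fun a => η_ N (Nᘁ) ≫ (f a ▷ Nᘁ), ?_⟩
  rw [Fintype.linearIndependent_iff] at hf ⊢
  intro g hg
  apply hf g
  set b := Module.finBasis ℚ (HB.obj N) with hb
  obtain ⟨b', _, hη⟩ := p_dualbasis HB N b
  have h1 : ∀ a, (HB.map (η_ N (Nᘁ) ≫ (f a ▷ Nᘁ))).hom (FibreFunctor.one : HB.obj (𝟙_ A)) =
      ∑ k, FibreFunctor.mul N (Nᘁ) ((HB.map (f a)).hom (b k)) (b' k) := by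
    intro a
    rw [p_dualbasis_comp, hη, map_sum]
    exact Finset.sum_congr rfl fun k _ => p_dualbasis_wR HB _ _ _ _
  have h2 : ∑ k, FibreFunctor.mul N (Nᘁ) ((∑ a, g a • (HB.map (f a)).hom) (b k)) (b' k) = 0 := by
    rw [← hg]
    simp only [h1, Finset.smul_sum]
    rw [Finset.sum_comm]
    refine Finset.sum_congr rfl fun k _ => ?_
    simp
  have h3 : TensorProduct.lift (FibreFunctor.mul (H := HB) N (Nᘁ))
      (∑ k, TensorProduct.tmul ℚ ((∑ a, g a • (HB.map (f a)).hom) (b k)) (b' k)) = 0 := by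
    rw [map_sum, ← h2]
    exact Finset.sum_congr rfl fun k _ => TensorProduct.lift.tmul _ _
  have h4 : ∑ k, TensorProduct.tmul ℚ ((∑ a, g a • (HB.map (f a)).hom) (b k)) (b' k) = 0 :=
    (FibreFunctor.bij (H := HB) N (Nᘁ)).1 (by rw [h3, map_zero])
  exact b.ext fun k => by
    rw [name_zero b' _ h4 k]
    rfl

end

end Pool.Agent.Lib.MP_ae0f86_nt
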