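import Pool.Agent.Lib.MP_ae0f86_nt.S.Stm

/-!
# MP_ae0f86_nt : single integrals, no unexpected integrals if the periods are independent
-/

set_option autoImplicit false

open CategoryTheory CategoryTheory.Limits Opposite MonoidalCategory

universe v u

namespace Pool.Agent.Lib.MP_ae0f86_nt

noncomputable section

attribute [local instance] CategoryTheory.Abelian.hasFiniteBiproducts

theorem eq2_inj_of_finrank {K E F : Type*} [Field K] [AddCommGroup E] [Module K E]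
    [AddCommGroup F] [Module K F] (f : E →ₗ[K] F) (p : Submodule K E) [Module.Finite K p]
    (h : Module.finrank K (p.map f) = Module.finrank K p) :
    ∀ x ∈ p, f x = 0 → x = 0 := by
  intro x hx hx0
  have h1 := LinearMap.finrank_range_add_finrank_ker (f.domRestrict p)
  rw [LinearMap.range_domRestrict, h] at h1
  have h2 : Module.finrank K (LinearMap.ker (f.domRestrict p)) = 0 := by omega
  have h3 : LinearMap.ker (f.domRestrict p) = ⊥ := Submodule.finrank_eq_zero.1 h2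
  have h4 : (⟨x, hx⟩ : p) ∈ LinearMap.ker (f.domRestrict p) := by
    rw [LinearMap.mem_ker]
    exact hx0
  rw [h3, Submodule.mem_bot] at h4
  exact congrArg Subtype.val h4

section Main

variable {A : Type u} [Category.{v} A] [Abelian A] [Linear ℚ A] [MonoidalCategory A]
  [SymmetricCategory A] [RigidCategory A] {HdR : A ⥤ ModuleCat.{0} QBar}
  {HB : A ⥤ ModuleCat.{0} ℚ} [FibreFunctor HdR] [FibreFunctor HB]

omit [Linear ℚ A] [RigidCategory A] in
/-- A nonzero morphism from the unit is a monomorphism. -/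
theorem eq2_mono (HB : A ⥤ ModuleCat.{0} ℚ) [FibreFunctor HB] {N : A} (g : 𝟙_ A ⟶ N)
    (hg : g ≠ 0) : Mono g := by
  have h1 : (HB.map g).hom (FibreFunctor.one : HB.obj (𝟙_ A)) ≠ 0 :=
    fun h => hg (r_zero_of_one HB g h)
  have h2 : Mono (HB.map g) := by
    rw [ModuleCat.mono_iff_injective]
    intro x y hxy
    obtain ⟨a, rfl⟩ := r_one_span HB x
    obtain ⟨b, rfl⟩ := r_one_span HB y
    have h3 : (a - b) • (HB.map g).hom (FibreFunctor.one : HB.obj (𝟙_ A)) = 0 := by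
      rw [sub_smul, ← map_smul, ← map_smul, sub_eq_zero]
      exact hxy
    rcases smul_eq_zero.1 h3 with h4 | h4
    · rw [sub_eq_zero.1 h4]
    · exact absurd h4 h1
  exact HB.mono_of_mono_map h2

omit [Linear ℚ A] in
/-- If the coevaluation of `N` is zero then there are no functionals on `HB(N ⊗ N^∨)`. -/
theorem eq2_coev (HB : A ⥤ ModuleCat.{0} ℚ) [FibreFunctor HB] (N : A)
    (h0 : η_ N (Nᘁ) = 0) (σ : Module.Dual ℚ (HB.obj (N ⊗ Nᘁ))) : σ = 0 := by
  have hfin : Module.Finite ℚ (HB.obj N) := FibreFunctor.finite N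
  let b := Module.finBasis ℚ (HB.obj N)
  obtain ⟨b', -, hb⟩ := p_dualbasis HB N b
  rw [h0, HB.map_zero] at hb
  have h1 : (0 : HB.obj (N ⊗ Nᘁ)) = ∑ i, FibreFunctor.mul N (Nᘁ) (b i) (b' i) := hb
  have h2 : ∑ i, TensorProduct.tmul ℚ (b i) (b' i) = 0 := by
    apply (FibreFunctor.bij (H := HB) N (Nᘁ)).1
    rw [map_zero, h1, map_sum]
    simp only [TensorProduct.lift.tmul]
  have h3 : ∀ i : Fin (Module.finrank ℚ (HB.obj N)), False := by
    intro i
    have h4 := congrArg (TensorProduct.lid ℚ ℚ ∘ TensorProduct.map (b.coord i) (b'.coord i)) h2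
    simp only [Function.comp_apply, map_sum, TensorProduct.map_tmul, map_zero,
      TensorProduct.lid_tmul] at h4
    rw [Finset.sum_eq_single i] at h4
    · simp at h4
    · intro j _ hj
      simp [hj]
    · intro h
      exact absurd (Finset.mem_univ _) h
  have h4 : Subsingleton (HB.obj N) := by
    refine ⟨fun x y => ?_⟩
    rw [← b.sum_repr x, ← b.sum_repr y]
    exact Finset.sum_congr rfl fun i _ => (h3 i).elim
  ext z
  obtain ⟨t, rfl⟩ := (FibreFunctor.bij (H := HB) N (Nᘁ)).2 z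
  have h5 : t = 0 := by
    induction t using TensorProduct.induction_on with
    | zero => rfl
    | tmul x y => rw [Subsingleton.elim x 0, TensorProduct.zero_tmul]
    | add x y hx hy => rw [hx, hy, add_zero]
  rw [h5, map_zero, map_zero, map_zero]

/-- A symbol `(V, ω, σ)` of an object of `⟨1⟩` is zero if all morphisms `V ⟶ 1` kill `ω`. -/
theorem eq2_zero {S : A → Prop} (hS : TClosed S) {V : A} (h1V : Gen (𝟙_ A) V) (hV : S V)
    (ω : HdR.obj V) (σ : Module.Dual ℚ (HB.obj V))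
    (h : ∀ f : V ⟶ 𝟙_ A, (HdR.map f).hom ω = 0) : asym HdR HB hV ω σ = 0 := by
  obtain ⟨φ, hφ⟩ := (r_gen_unit HB h1V).2 σ
  obtain ⟨hadd, hsmul, haddr, hsmulr, hfun, hz, hz'⟩ := a_arel HdR HB S
  have h1 : σ = rChi HB ∘ₗ (HB.map φ).hom := by
    ext x
    rw [LinearMap.comp_apply, hφ, map_smul, rChi_one, smul_eq_mul, mul_one]
  rw [h1, hfun hV hS.unit φ ω (rChi HB), h φ, hz]

/-- (1) → (2), local form: only the power `T^(2n)` is used. -/
theorem p_sieq2_loc {c : Comparison HdR HB} {g : TensorGrading HdR} (Λ : Lefschetz c g)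
    (hinj : S_siinj Λ) (htw : S_sitwist Λ) (hiso : S_siiso A) (w : ℕ) (T : A)
    (hss : SemisimpleGen T) (hT : Nonempty (T ≅ Tᘁ ⊗ tpow Λ.L w)) (n : ℕ)
    (hind : independent c (tpow T (2 * n)) = expected HB (tpow T (2 * n))) :
    ¬ Unexpected Λ w T n := by
  rintro ⟨ω, γ, -, hω, hγ⟩
  obtain ⟨ψ⟩ := (hiso T Λ.L w hT).1 n
  obtain ⟨ω', γ', h1, h2⟩ :=
    (htw (tpow T n ⊗ (tpow T n)ᘁ) (tpow T (2 * n)) (w * n) ⟨ψ⟩).2 ω γ hω hγ
  have hU := hinj (tpow T n ⊗ (tpow T n)ᘁ) (tpow T (2 * n)) (w * n) ⟨ψ⟩ hind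
  have hG : TClosed (Gen T) := a_genclosed.1 T
  have gN : Gen T (tpow T n) := genpow_mem T n
  have gU : Gen T (tpow T n ⊗ (tpow T n)ᘁ) := Gen.tensor gN (Gen.dual gN)
  -- the evaluation is injective on `fw U`
  have hI : ∀ x ∈ fw HdR HB gU, c.evAlg (Gen T) x = 0 → x = 0 := by
    have e1 := a_fwev c gU
    have e2 := a_fwdim c hG gU
    have hfin := a_fwfin HdR HB gU
    have e3 : Module.finrank QBar ((fw HdR HB gU).map (c.evAlg (Gen T)).toLinearMap) =
        Module.finrank QBar (fw HdR HB gU) := by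
      rw [e1, e2]
      exact hU
    exact eq2_inj_of_finrank (c.evAlg (Gen T)).toLinearMap (fw HdR HB gU) e3
  -- the coevaluation
  have hη : η_ (tpow T n) ((tpow T n)ᘁ) ≠ 0 := fun h0 => by
    have h3 := eq2_coev HB (tpow T n) h0 γ'
    have h5 : c.per _ ω' γ' = 1 := h2
    rw [h3, map_zero] at h5
    exact zero_ne_one h5
  have hm : Mono (η_ (tpow T n) ((tpow T n)ᘁ)) := eq2_mono HB _ hη
  -- `1 ∈ fw U`
  have h1U : (1 : PerAlg HdR HB (Gen T)) ∈ fw HdR HB gU := by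
    have e1 : Lin (tpow T n ⊗ (tpow T n)ᘁ) (𝟙_ A) :=
      (a_lincl.1 (tpow T n ⊗ (tpow T n)ᘁ)).sub (η_ (tpow T n) ((tpow T n)ᘁ))
        (a_lincl.2.1 _)
    have e2 := a_fwlin HdR HB hG.toClosed (Gen.unit : Gen T (𝟙_ A)) gU e1
    apply e2
    rw [(a_fwprod HdR HB).2 (Gen.unit : Gen T (𝟙_ A))]
    exact Submodule.one_le.1 le_rfl
  have h3 : asym HdR HB gU ω' γ' = 1 := by
    rw [← sub_eq_zero]
    refine hI _ (Submodule.sub_mem _ (Submodule.subset_span ⟨_, _, rfl⟩) h1U) ?_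
    rw [map_sub, map_one, r_evAlg, sub_eq_zero]
    exact h2
  -- `asym U ω' γ'` is in `rQ`
  obtain ⟨V₀, V₁, hV₀, hV₁, ⟨φ⟩⟩ := ss_splits HB (M₀ := 𝟙_ A) hss _ gU
  have hmono : Mono (biprod.inr ≫ φ.inv : V₁ ⟶ tpow T n ⊗ (tpow T n)ᘁ) := mono_comp _ _
  have gV₀ : Gen T V₀ := a_genclosed.2.2.2 T (𝟙_ A) V₀ Gen.unit hV₀
  have gV₁ : Gen T V₁ := Gen.sub (biprod.inr ≫ φ.inv : V₁ ⟶ tpow T n ⊗ (tpow T n)ᘁ) gU
  have h4 := r_split HdR HB hG.toClosed gU gV₀ gV₁ φ ω' γ'
  have h5 : asym HdR HB gV₀ ((HdR.map (φ.hom ≫ biprod.fst)).hom ω')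
      (γ' ∘ₗ (HB.map (biprod.inl ≫ φ.inv)).hom) = 0 := by
    refine eq2_zero hG hV₀ gV₀ _ _ fun f => ?_
    have h6 := h1 ((φ.hom ≫ biprod.fst) ≫ f)
    rw [← LinearMap.comp_apply, ← ModuleCat.hom_comp, ← HdR.map_comp]
    exact h6
  rw [h5, zero_add, h3] at h4
  refine rQ_one c hss ?_
  rw [h4]
  exact ⟨V₁, gV₁, _, _, hV₁, rfl⟩

theorem p_sieq2 {c : Comparison HdR HB} {g : TensorGrading HdR} (Λ : Lefschetz c g) :
    S_siinj Λ → S_sitwist Λ → S_siiso A → S_sieq2 Λ :=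
  fun hinj htw hiso w T hss hT hind n =>
    p_sieq2_loc Λ hinj htw hiso w T hss hT n (hind (2 * n))

end Main

end

end Pool.Agent.Lib.MP_ae0f86_nt
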