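import Pool.Agent.Lib.MP_ae0f86_nt.S.Stm

/-!
# MP_ae0f86_nt : piece [SI fil]
-/

set_option autoImplicit false

open CategoryTheory CategoryTheory.Limits Opposite MonoidalCategory

universe v u

namespace Pool.Agent.Lib.MP_ae0f86_nt

noncomputable section

attribute [local instance] CategoryTheory.Abelian.hasFiniteBiproducts

variable {A : Type u} [Category.{v} A] [Abelian A] [Linear ℚ A] [MonoidalCategory A]
  [SymmetricCategory A] [RigidCategory A] {HdR : A ⥤ ModuleCat.{0} QBar}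
  {HB : A ⥤ ModuleCat.{0} ℚ} [FibreFunctor HdR] [FibreFunctor HB]

/-- The operators of `S_siops`. -/
structure fil_Ops (g : TensorGrading HdR) (M : A)
    (π : ℤ → (PerAlg HdR HB (Gen M) →ₗ[QBar] PerAlg HdR HB (Gen M))) : Prop where
  sym : ∀ (p : ℤ) {N : A} (hN : Gen M N) ω σ,
      π p (asym HdR HB hN ω σ) = asym HdR HB hN (g.pr p N ω) σ
  sum : ∀ x, ∃ s : Finset ℤ, (∀ p, p ∉ s → π p x = 0) ∧ ∑ p ∈ s, π p x = x

section Lemmas

variable {g : TensorGrading HdR} {M : A}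
    {π : ℤ → (PerAlg HdR HB (Gen M) →ₗ[QBar] PerAlg HdR HB (Gen M))}

lemma fil_orth (h : fil_Ops g M π) {p q : ℤ} (hpq : p ≠ q) (x : PerAlg HdR HB (Gen M)) :
    π p (π q x) = 0 := by
  obtain ⟨N, hN, ω, σ, rfl⟩ := r_sym M x
  obtain ⟨hadd, hsmul, haddr, hsmulr, hfun, hz, hz'⟩ := a_arel HdR HB (Gen M)
  rw [h.sym, h.sym, g.orth p q N ω hpq, hz]

lemma fil_idem (h : fil_Ops g M π) (p : ℤ) (x : PerAlg HdR HB (Gen M)) :
    π p (π p x) = π p x := by
  obtain ⟨N, hN, ω, σ, rfl⟩ := r_sym M x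
  rw [h.sym, h.sym, g.idem p N ω]

lemma fil_mul (h : fil_Ops g M π) (p q : ℤ) (x y : PerAlg HdR HB (Gen M)) :
    π (p + q) (π p x * π q y) = π p x * π q y := by
  obtain ⟨N, hN, ω, σ, rfl⟩ := r_sym M x
  obtain ⟨N', hN', ω', σ', rfl⟩ := r_sym M y
  rw [h.sym, h.sym, (a_algrel HdR HB (Gen M)).2.1 hN hN' (Gen.tensor hN hN'), h.sym,
    g.tensor p q N N' ω ω']

lemma fil_mul_left (h : fil_Ops g M π) (p q : ℤ) (a b : PerAlg HdR HB (Gen M)) :
    π (p + q) (π p a * b) = π p a * π q b := by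
  obtain ⟨s, hs, hb⟩ := h.sum b
  have h1 : π (p + q) (π p a * b) = ∑ r ∈ s, π (p + q) (π p a * π r b) := by
    conv_lhs => rw [← hb]
    rw [Finset.mul_sum, map_sum]
  rw [h1, Finset.sum_eq_single q]
  · exact fil_mul h p q a b
  · intro r _ hr
    rw [← fil_mul h p r a b]
    exact fil_orth h (fun e => hr (by linarith)) _
  · intro hq
    rw [hs q hq, mul_zero, map_zero]

lemma fil_Q (h : fil_Ops g M π) (p : ℤ) {x : PerAlg HdR HB (Gen M)}
    (hx : x ∈ rQ HdR HB M (𝟙_ A)) : π p x ∈ rQ HdR HB M (𝟙_ A) := by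
  obtain ⟨W, hW, ω, σ, ho, rfl⟩ := hx
  exact ⟨W, hW, g.pr p W ω, σ, ho, h.sym p hW ω σ⟩

lemma fil_one (h : fil_Ops g M π) : π 0 (1 : PerAlg HdR HB (Gen M)) = 1 := by
  have h1 : asym HdR HB (Gen.unit : Gen M (𝟙_ A)) FibreFunctor.one (rChi HB) =
      (1 : PerAlg HdR HB (Gen M)) := (a_algrel HdR HB (Gen M)).2.2.1 _ _ rChi_one
  rw [← h1, h.sym, g.one]

/-- The components of degree `q ≥ p` of the elements of `fw`. -/
lemma fil_comp (h : fil_Ops g M π) {p q : ℤ} (hpq : p ≤ q) {N : A} (hN : Gen M N)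
    {x : PerAlg HdR HB (Gen M)} (hx : x ∈ fw HdR HB hN) :
    π q x ∈ Submodule.span QBar {z | ∃ ω ∈ g.F p N, ∃ σ, z = asym HdR HB hN ω σ} := by
  refine Submodule.span_induction (p := fun y _ => π q y ∈
    Submodule.span QBar {z | ∃ ω ∈ g.F p N, ∃ σ, z = asym HdR HB hN ω σ}) ?_ ?_ ?_ ?_ hx
  · rintro _ ⟨ω, σ, rfl⟩
    rw [h.sym]
    refine Submodule.subset_span ⟨g.pr q N ω, ?_, σ, rfl⟩
    intro q' hq'
    exact g.orth q' q N ω (by omega)
  · rw [map_zero]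
    exact Submodule.zero_mem _
  · intro a b _ _ ha hb
    rw [map_add]
    exact Submodule.add_mem _ ha hb
  · intro a b _ hb
    rw [map_smul]
    exact Submodule.smul_mem _ _ hb

lemma fil_span (h : fil_Ops g M π) {p : ℤ} {N : A} (hN : Gen M N)
    {x : PerAlg HdR HB (Gen M)} (hx : x ∈ fw HdR HB hN) (h0 : ∀ q < p, π q x = 0) :
    x ∈ Submodule.span QBar {z | ∃ ω ∈ g.F p N, ∃ σ, z = asym HdR HB hN ω σ} := by
  obtain ⟨s, hs, hb⟩ := h.sum x
  rw [← hb]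
  refine Submodule.sum_mem _ fun q _ => ?_
  by_cases hq : q < p
  · rw [h0 q hq]
    exact Submodule.zero_mem _
  · exact fil_comp h (not_lt.1 hq) hN hx

lemma fil_fw (h : fil_Ops g M π) (p : ℤ) {N : A} (hN : Gen M N)
    {x : PerAlg HdR HB (Gen M)} (hx : x ∈ fw HdR HB hN) : π p x ∈ fw HdR HB hN := by
  have h1 := fil_comp h (le_refl p) hN hx
  refine Submodule.span_mono ?_ h1
  rintro _ ⟨ω, -, σ, rfl⟩
  exact ⟨ω, σ, rfl⟩

lemma fil_zero (h : fil_Ops g M π) (c : Comparison HdR HB) (hss : SemisimpleGen M)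
    {z : PerAlg HdR HB (Gen M)} (hz : z ∉ rQ HdR HB M (𝟙_ A)) :
    π 0 z ∉ rQ HdR HB M (𝟙_ A) := by
  intro hc
  apply hz
  obtain ⟨W, hW, ω, σ, q, hq, rfl⟩ :=
    rQ_dec (Gen.unit : Gen M (𝟙_ A)) (ss_splits HB hss) z
  obtain ⟨a, ha⟩ := r_scalar (a_genclosed.1 M) hW (a_genclosed.2.2.2 M (𝟙_ A) W Gen.unit hW) ω σ
  rw [ha, Algebra.algebraMap_eq_smul_one] at hc ⊢
  rw [map_add, map_smul, fil_one h] at hc
  have h1 : a • (1 : PerAlg HdR HB (Gen M)) ∈ rQ HdR HB M (𝟙_ A) := by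
    have h2 := Submodule.sub_mem _ hc (fil_Q h 0 hq)
    rwa [add_sub_cancel_right] at h2
  have h3 : a = 0 := by
    by_contra ha0
    apply rQ_one c hss
    have h4 := Submodule.smul_mem _ a⁻¹ h1
    rwa [smul_smul, inv_mul_cancel₀ ha0, one_smul] at h4
  rw [h3, zero_smul, zero_add]
  exact hq

end Lemmas

/-- [SI fil] -/
theorem p_sifil : S_siops HdR HB → S_sipair HdR HB → S_sifil HdR HB := by
  intro hops hpair c g M hss N hN x hx hx0
  obtain ⟨π, hπ, hsum⟩ := hops g M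
  have h : fil_Ops g M π := ⟨hπ, hsum⟩
  classical
  obtain ⟨s, hs, hb⟩ := hsum x
  let s' := s.filter (fun p => π p x ≠ 0)
  have hne : s'.Nonempty := by
    by_contra hc
    rw [Finset.not_nonempty_iff_eq_empty, Finset.filter_eq_empty_iff] at hc
    apply hx0
    rw [← hb]
    refine Finset.sum_eq_zero fun p hp => ?_
    by_contra h1
    exact hc hp h1
  set p := s'.min' hne with hp
  have hps : π p x ≠ 0 := (Finset.mem_filter.1 (s'.min'_mem hne)).2
  have hlow : ∀ q < p, π q x = 0 := by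
    intro q hq
    by_contra h1
    have h2 : q ∈ s := by
      by_contra h3
      exact h1 (hs q h3)
    have h4 : q ∈ s' := Finset.mem_filter.2 ⟨h2, h1⟩
    exact absurd (s'.min'_le q h4) (not_le.2 hq)
  refine ⟨p, fil_span h hN hx hlow, ?_⟩
  obtain ⟨y₀, hy₀, hy⟩ := hpair c M hss N hN (π p x) (fil_fw h p hN hx) hps
  refine ⟨π (-p) y₀, fil_comp h (le_refl _) (Gen.dual hN) hy₀, ?_⟩
  intro hc
  have h1 := fil_zero h c hss hy
  have e1 : π 0 (y₀ * π p x) = π (-p) y₀ * π p x := by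
    have := fil_mul_left h p (-p) x y₀
    rw [add_neg_cancel, mul_comm, mul_comm (π p x) (π (-p) y₀)] at this
    exact this
  have e2 : π 0 (π (-p) y₀ * x) = π (-p) y₀ * π p x := by
    have := fil_mul_left h (-p) p y₀ x
    rw [neg_add_cancel] at this
    exact this
  apply h1
  rw [e1, ← e2]
  exact fil_Q h 0 hc

end

end Pool.Agent.Lib.MP_ae0f86_nt
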