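import Pool.Agent.Lib.MP_ae0f86_nt.S.Stm

/-!
# MP_ae0f86_nt : single integrals, piece [SI grw]

The dimension of `G(T)` is at most the transcendence degree plus one, if all tensor powers of `T`
have the expected number of linearly independent periods.
-/

set_option autoImplicit false

open CategoryTheory CategoryTheory.Limits Opposite MonoidalCategory

universe v u

namespace Pool.Agent.Lib.MP_ae0f86_nt

noncomputable section

attribute [local instance] CategoryTheory.Abelian.hasFiniteBiproducts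

section Powers

variable {K R : Type*} [Field K] [CommRing R] [Algebra K R]

/-- Powers of `1 + V`. -/
theorem grw_pow (V : Submodule K R) (n : ℕ) :
    (1 ⊔ V) ^ (n + 1) ≤ (1 ⊔ V) ^ n ⊔ V ^ (n + 1) := by
  induction n with
  | zero => simp
  | succ n ih =>
    have h1 : (1 ⊔ V) ^ (n + 1 + 1) = (1 ⊔ V) ^ (n + 1) ⊔ (1 ⊔ V) ^ (n + 1) * V := by
      rw [pow_succ (1 ⊔ V) (n + 1), Submodule.mul_sup, mul_one]
    have h2 : (1 ⊔ V) ^ (n + 1) * V ≤ ((1 ⊔ V) ^ n ⊔ V ^ (n + 1)) * V :=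
      Submodule.mul_le.2 fun x hx y hy => Submodule.mul_mem_mul (ih hx) hy
    have h3 : ((1 ⊔ V) ^ n ⊔ V ^ (n + 1)) * V = (1 ⊔ V) ^ n * V ⊔ V ^ (n + 1 + 1) := by
      rw [Submodule.sup_mul, ← pow_succ]
    have h4 : (1 ⊔ V) ^ n * V ≤ (1 ⊔ V) ^ (n + 1) := by
      rw [pow_succ]
      exact Submodule.mul_le.2 fun x hx y hy =>
        Submodule.mul_mem_mul hx ((le_sup_right : V ≤ 1 ⊔ V) hy)
    rw [h1]
    refine sup_le le_sup_left ((h2.trans h3.le).trans (sup_le (h4.trans le_sup_left) le_sup_right))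

/-- Dimensions of the powers of `1 + V`. -/
theorem grw_finrank (V : Submodule K R) [Module.Finite K V] (n : ℕ) :
    Module.finrank K ↥((1 ⊔ V) ^ n) ≤ ∑ k ∈ Finset.range (n + 1), Module.finrank K ↥(V ^ k) := by
  have hV : V.FG := Module.Finite.iff_fg.1 inferInstance
  have h1 : (1 : Submodule K R).FG := by
    rw [Submodule.one_eq_span]
    exact Submodule.fg_span (Set.finite_singleton _)
  have hf : ∀ k, Module.Finite K ↥(V ^ k) := fun k => Module.Finite.iff_fg.2 (hV.pow k)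
  have hf' : ∀ k, Module.Finite K ↥((1 ⊔ V) ^ k) := fun k =>
    Module.Finite.iff_fg.2 ((h1.sup hV).pow k)
  induction n with
  | zero =>
    rw [Finset.sum_range_one]
    have e : ((1 ⊔ V) ^ 0 : Submodule K R) = V ^ 0 := by rw [pow_zero, pow_zero]
    rw [e]
  | succ n ih =>
    have := hf (n + 1)
    have := hf' n
    rw [Finset.sum_range_succ]
    calc Module.finrank K ↥((1 ⊔ V) ^ (n + 1))
        ≤ Module.finrank K ↥((1 ⊔ V) ^ n ⊔ V ^ (n + 1)) := Submodule.finrank_mono (grw_pow V n)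
      _ ≤ Module.finrank K ↥((1 ⊔ V) ^ n) + Module.finrank K ↥(V ^ (n + 1)) :=
        Submodule.finrank_add_le_finrank_add_finrank _ _
      _ ≤ _ := Nat.add_le_add_right ih _

end Powers

section Main

variable {A : Type u} [Category.{v} A] [Abelian A] [Linear ℚ A] [MonoidalCategory A]
  [SymmetricCategory A] [RigidCategory A] {HdR : A ⥤ ModuleCat.{0} QBar}
  {HB : A ⥤ ModuleCat.{0} ℚ} [FibreFunctor HdR] [FibreFunctor HB]

omit [Linear ℚ A] [RigidCategory A] in
theorem grw_fwpow (HdR : A ⥤ ModuleCat.{0} QBar) (HB : A ⥤ ModuleCat.{0} ℚ)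
    [FibreFunctor HdR] [FibreFunctor HB] (T : A) (n : ℕ) :
    fw HdR HB (S := fun _ : A => True) (W := tpow T n) trivial =
      (fw HdR HB (S := fun _ : A => True) (W := T) trivial) ^ n := by
  induction n with
  | zero =>
    exact ((a_fwprod HdR HB).2 (S := fun _ : A => True) trivial).trans
      (pow_zero (fw HdR HB (S := fun _ : A => True) (W := T) trivial)).symm
  | succ n ih =>
    have h := (a_fwprod HdR HB).1 (S := fun _ : A => True) (M := tpow T n) (N := T)
      trivial trivial trivial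
    rw [ih] at h
    exact h.trans (pow_succ (fw HdR HB (S := fun _ : A => True) (W := T) trivial) n).symm

omit [Linear ℚ A] in
theorem grw_fwsum (HdR : A ⥤ ModuleCat.{0} QBar) (HB : A ⥤ ModuleCat.{0} ℚ)
    [FibreFunctor HdR] [FibreFunctor HB] (T : A) :
    fw HdR HB (S := fun _ : A => True) (W := 𝟙_ A ⊞ T) trivial ≤
      1 ⊔ fw HdR HB (S := fun _ : A => True) (W := T) trivial := by
  have gc : S_genclosed (A := A) := a_genclosed
  have hcl : Closed (fun _ : A => True) := gc.2.1.toClosed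
  have h1 : fw HdR HB (S := fun _ : A => True) (W := 𝟙_ A) trivial = 1 :=
    (a_fwprod HdR HB).2 (S := fun _ : A => True) trivial
  rw [← h1, fw, Submodule.span_le]
  rintro _ ⟨ω, σ, rfl⟩
  rw [SetLike.mem_coe, r_split HdR HB (S := fun _ : A => True) hcl (N := 𝟙_ A ⊞ T) (N₀ := 𝟙_ A)
    (N₁ := T) trivial trivial trivial (Iso.refl _) ω σ]
  exact Submodule.add_mem_sup (Submodule.subset_span ⟨_, _, rfl⟩)
    (Submodule.subset_span ⟨_, _, rfl⟩)

theorem grw_count (c : Comparison HdR HB) (T : A)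
    (hT : ∀ n, independent c (tpow T n) = expected HB (tpow T n)) (n : ℕ) :
    expected HB (tpow (𝟙_ A ⊞ T) n) ≤ (n + 1) * independent c (tpow (𝟙_ A ⊞ T) n) := by
  have gc : S_genclosed (A := A) := a_genclosed
  have hcl : Closed (fun _ : A => True) := gc.2.1.toClosed
  have hlincl : S_lincl A := a_lincl
  set T' : A := 𝟙_ A ⊞ T with hT'
  set V := fw HdR HB (S := fun _ : A => True) (W := T) trivial with hV
  set V' := fw HdR HB (S := fun _ : A => True) (W := T') trivial with hV'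
  have hfin : Module.Finite QBar V := a_fwfin HdR HB (S := fun _ : A => True) (W := T) trivial
  have hfin' : Module.Finite QBar V' := a_fwfin HdR HB (S := fun _ : A => True) (W := T') trivial
  have h1 : fw HdR HB (S := fun _ : A => True) (W := 𝟙_ A) trivial = 1 :=
    (a_fwprod HdR HB).2 (S := fun _ : A => True) trivial
  have hle1 : 1 ≤ V' := by
    rw [← h1]
    exact a_fwlin HdR HB hcl trivial trivial
      ((hlincl.1 T').sub (biprod.inl : 𝟙_ A ⟶ T') (hlincl.2.1 _))
  have hleT : V ≤ V' := a_fwlin HdR HB hcl trivial trivial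
      ((hlincl.1 T').sub (biprod.inr : T ⟶ T') (hlincl.2.1 _))
  have hle : V' ≤ 1 ⊔ V := grw_fwsum HdR HB T
  have hmem : (1 : PerAlg HdR HB (fun _ : A => True)) ∈ V' := hle1 (Submodule.one_le.1 le_rfl)
  have hpow : ∀ k, k ≤ n → V ^ k ≤ V' ^ n := fun k hk =>
    (pow_le_pow_left' hleT k).trans (r_pow_mono V' hmem hk)
  have hfn : Module.Finite QBar ↥(V' ^ n) :=
    Module.Finite.iff_fg.2 ((Module.Finite.iff_fg.1 hfin').pow n)
  have htop := a_fwtop c
  have e1 : expected HB (tpow T' n) = Module.finrank QBar ↥(V' ^ n) := by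
    rw [hV', ← grw_fwpow HdR HB T' n]
    exact (htop (tpow T' n)).1
  have e2 : independent c (tpow T' n) = Module.finrank QBar
      ↥((V' ^ n).map (c.evAlg (fun _ : A => True)).toLinearMap) := by
    rw [hV', ← grw_fwpow HdR HB T' n]
    exact (htop (tpow T' n)).2
  have e3 : ∀ k, expected HB (tpow T k) = Module.finrank QBar ↥(V ^ k) := fun k => by
    rw [hV, ← grw_fwpow HdR HB T k]
    exact (htop (tpow T k)).1
  have e4 : ∀ k, independent c (tpow T k) = Module.finrank QBar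
      ↥((V ^ k).map (c.evAlg (fun _ : A => True)).toLinearMap) := fun k => by
    rw [hV, ← grw_fwpow HdR HB T k]
    exact (htop (tpow T k)).2
  have hfm : Module.Finite QBar ↥((1 ⊔ V) ^ n) := by
    have hV2 : V.FG := Module.Finite.iff_fg.1 inferInstance
    have h2 : (1 : Submodule QBar (PerAlg HdR HB (fun _ : A => True))).FG := by
      rw [Submodule.one_eq_span]
      exact Submodule.fg_span (Set.finite_singleton _)
    exact Module.Finite.iff_fg.2 ((h2.sup hV2).pow n)
  calc expected HB (tpow T' n) = Module.finrank QBar ↥(V' ^ n) := e1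
    _ ≤ Module.finrank QBar ↥((1 ⊔ V) ^ n) := Submodule.finrank_mono (pow_le_pow_left' hle n)
    _ ≤ ∑ k ∈ Finset.range (n + 1), Module.finrank QBar ↥(V ^ k) := grw_finrank V n
    _ ≤ ∑ k ∈ Finset.range (n + 1), independent c (tpow T' n) := by
      refine Finset.sum_le_sum fun k hk => ?_
      rw [← e3, ← hT, e4, e2]
      exact Submodule.finrank_mono (Submodule.map_mono (hpow k (by
        rw [Finset.mem_range] at hk
        omega)))
    _ = (n + 1) * independent c (tpow T' n) := by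
      rw [Finset.sum_const, Finset.card_range, smul_eq_mul]

theorem p_sigrw (c : Comparison HdR HB) : S_sigrw c := by
  intro T hT
  have hlincl : S_lincl A := a_lincl
  have h1 : Lin (𝟙_ A ⊞ T) (𝟙_ A) :=
    (hlincl.1 (𝟙_ A ⊞ T)).sub (biprod.inl : 𝟙_ A ⟶ 𝟙_ A ⊞ T) (hlincl.2.1 _)
  have hG1 : Gen T (𝟙_ A ⊞ T) := Gen.sum Gen.unit Gen.base
  have hG2 : Gen (𝟙_ A ⊞ T) T := Gen.sub (biprod.inr : T ⟶ 𝟙_ A ⊞ T) Gen.base
  obtain ⟨r, g, t, hr, htg, -, -, hg, ht, ⟨a, b, ha, hab⟩, -⟩ :=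
    densityLaw c T (𝟙_ A ⊞ T) hG1 hG2 h1
  have hgt : g ≤ t + 1 := by
    by_contra hlt
    have hlt : t + 2 ≤ g := by omega
    obtain ⟨n, hn⟩ := exists_nat_gt (b / a)
    have h2 := (hab n).1
    have h3 := (hab n).2.2.2
    have h4 : (expected HB (tpow (𝟙_ A ⊞ T) n) : ℝ) ≤
        ((n : ℝ) + 1) * independent c (tpow (𝟙_ A ⊞ T) n) := by
      exact_mod_cast grw_count c T hT n
    have hn1 : (0 : ℝ) < (n : ℝ) + 1 := by positivity
    have h5 : a * ((n : ℝ) + 1) ^ g ≤ ((n : ℝ) + 1) * (b * ((n : ℝ) + 1) ^ t) :=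
      (h2.trans h4).trans (mul_le_mul_of_nonneg_left h3 hn1.le)
    have h6 : ((n : ℝ) + 1) ^ (t + 2) ≤ ((n : ℝ) + 1) ^ g :=
      pow_le_pow_right₀ (by linarith [(Nat.cast_nonneg n : (0 : ℝ) ≤ n)]) hlt
    have h7 : a * ((n : ℝ) + 1) ^ (t + 2) ≤ ((n : ℝ) + 1) * (b * ((n : ℝ) + 1) ^ t) :=
      (mul_le_mul_of_nonneg_left h6 ha.le).trans h5
    have h8 : (a * ((n : ℝ) + 1)) * ((n : ℝ) + 1) ^ (t + 1) ≤ b * ((n : ℝ) + 1) ^ (t + 1) := by
      calc (a * ((n : ℝ) + 1)) * ((n : ℝ) + 1) ^ (t + 1) = a * ((n : ℝ) + 1) ^ (t + 2) := by ring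
        _ ≤ ((n : ℝ) + 1) * (b * ((n : ℝ) + 1) ^ t) := h7
        _ = b * ((n : ℝ) + 1) ^ (t + 1) := by ring
    have h9 : a * ((n : ℝ) + 1) ≤ b := le_of_mul_le_mul_right h8 (by positivity)
    have h10 : b < a * n := by
      rw [div_lt_iff₀ ha] at hn
      linarith [mul_comm (n : ℝ) a]
    linarith
  rw [hg, ht]
  simp only [Cardinal.toENat_nat]
  exact_mod_cast hgt

end Main

end

end Pool.Agent.Lib.MP_ae0f86_nt
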