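import Pool.Agent.Lib.MP_ae0f86_nt.S.Stm

/-!
# MP_ae0f86_nt : single integrals, piece inj
-/

set_option autoImplicit false

open CategoryTheory CategoryTheory.Limits Opposite MonoidalCategory

universe v u

namespace Pool.Agent.Lib.MP_ae0f86_nt

noncomputable section

attribute [local instance] CategoryTheory.Abelian.hasFiniteBiproducts

variable {A : Type u} [Category.{v} A] [Abelian A] [Linear ℚ A] [MonoidalCategory A]
  [SymmetricCategory A] [RigidCategory A] {HdR : A ⥤ ModuleCat.{0} QBar}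
  {HB : A ⥤ ModuleCat.{0} ℚ} [FibreFunctor HdR] [FibreFunctor HB]

omit [Linear ℚ A] [MonoidalCategory A] [SymmetricCategory A] [RigidCategory A] in
/-- isomorphic objects are in the same linear class -/
theorem inj_lin {X Y : A} (e : X ≅ Y) : Lin X Y := by
  have hl : S_lincl A := a_lincl
  exact (hl.1 X).sub e.inv (hl.2.1 X)

theorem inj_iso (c : Comparison HdR HB) {X Y : A} (e : X ≅ Y) :
    Nf HB X = Nf HB Y ∧ Pf c X = Pf c Y := by
  obtain ⟨h1, h2⟩ := a_lineqv c X Y (inj_lin e)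
  obtain ⟨h3, h4⟩ := a_lineqv c Y X (inj_lin e.symm)
  exact ⟨le_antisymm h3 h1, le_antisymm h4 h2⟩

theorem p_siinj {c : Comparison HdR HB} {g : TensorGrading HdR} (Λ : Lefschetz c g) :
    S_siinj Λ := by
  rintro U Y k ⟨e⟩ h
  obtain ⟨h1, h2⟩ := a_twisteqv c Λ.L Λ.inv U Λ.iso k
  obtain ⟨h3, h4⟩ := inj_iso c e
  have h' : Pf c Y = Nf HB Y := h
  show Pf c U = Nf HB U
  rw [← h2, h4, h', ← h3, h1]

end

end Pool.Agent.Lib.MP_ae0f86_nt
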