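import Pool.Agent.Lib.MP_ae0f86_nt.S.Stm

set_option autoImplicit false

/-!
# MP_ae0f86_nt : single integrals, from a sum of symbols to one symbol
-/

open CategoryTheory CategoryTheory.Limits Opposite MonoidalCategory

universe v u

namespace Pool.Agent.Lib.MP_ae0f86_nt

noncomputable section

attribute [local instance] CategoryTheory.Abelian.hasFiniteBiproducts

variable {A : Type u} [Category.{v} A] [Abelian A] [Linear ℚ A] [MonoidalCategory A]
  [SymmetricCategory A] [RigidCategory A] {HdR : A ⥤ ModuleCat.{0} QBar}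
  {HB : A ⥤ ModuleCat.{0} ℚ} [FibreFunctor HdR] [FibreFunctor HB]

omit [Linear ℚ A] [RigidCategory A] in
theorem one_mulF {K : Type} [Field K] {H : A ⥤ ModuleCat.{0} K} [FibreFunctor H]
    (g : TensorGrading H) (p q : ℤ) {M N : A} {ω : H.obj M} {η : H.obj N}
    (hω : ω ∈ g.F p M) (hη : η ∈ g.F q N) :
    (FibreFunctor.mul M N ω η : H.obj (M ⊗ N)) ∈ g.F (p + q) (M ⊗ N) := by
  have hω' : ∀ a < p, g.pr a M ω = 0 := hω
  have hη' : ∀ a < q, g.pr a N η = 0 := hη
  show ∀ k < p + q, g.pr k (M ⊗ N) (FibreFunctor.mul M N ω η) = 0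
  intro k hk
  obtain ⟨s, -, hs⟩ := g.sum M ω
  obtain ⟨t, -, ht⟩ := g.sum N η
  rw [← hs, ← ht]
  simp only [map_sum, LinearMap.sum_apply]
  refine Finset.sum_eq_zero fun a _ => Finset.sum_eq_zero fun b _ => ?_
  by_cases ha : b < p
  · rw [hω' b ha, map_zero, LinearMap.zero_apply, map_zero]
  by_cases hb : a < q
  · rw [hη' a hb, map_zero, map_zero]
  have h1 := g.tensor b a M N ω η
  have h2 : g.pr k (M ⊗ N) (g.pr (b + a) (M ⊗ N)
      ((FibreFunctor.mul M N).app (g.pr b M ω) (g.pr a N η))) = 0 :=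
    g.orth k (b + a) (M ⊗ N) _ (by omega)
  rw [h1] at h2
  exact h2

omit [Linear ℚ A] in
theorem p_sione : S_sione HdR HB := by
  intro g M U V hU hV r i p hip ω γ hω
  obtain ⟨hadd, hsmul, haddr, hsmulr, hfun, hz, hz'⟩ := a_arel HdR HB (Gen M)
  obtain ⟨-, hmul, hone, -⟩ := a_algrel HdR HB (Gen M)
  let u : Fin r → HdR.obj V := fun a => (HdR.map (i a)).hom (FibreFunctor.one : HdR.obj (𝟙_ A))
  let w : Fin r → Module.Dual ℚ (HB.obj V) := fun b => rChi HB ∘ₗ (HB.map (p b)).hom
  have hu : ∀ a, u a ∈ g.F 0 V := by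
    intro a
    show ∀ k < (0 : ℤ), g.pr k V (u a) = 0
    intro k hk
    have h1 : g.pr 0 V (u a) = u a := by
      have h2 := g.nat 0 (i a) (FibreFunctor.one : HdR.obj (𝟙_ A))
      rw [g.one] at h2
      exact h2
    rw [← h1]
    exact g.orth k 0 V _ (by omega)
  have hδ : ∀ a b, asym HdR HB hV (u a) (w b) = if a = b then 1 else 0 := by
    intro a b
    have h1 := hfun Gen.unit hV (i a) (FibreFunctor.one : HdR.obj (𝟙_ A)) (w b)
    have h2 : asym HdR HB hV (u a) (w b) =
        asym HdR HB (Gen.unit : Gen M (𝟙_ A)) (FibreFunctor.one : HdR.obj (𝟙_ A))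
          (w b ∘ₗ (HB.map (i a)).hom) := h1.symm
    rw [h2]
    have h3 : w b ∘ₗ (HB.map (i a)).hom = rChi HB ∘ₗ (HB.map (i a ≫ p b)).hom := by
      rw [HB.map_comp]
      rfl
    rw [h3, hip a b]
    by_cases hab : a = b
    · rw [if_pos hab, if_pos hab]
      refine hone Gen.unit _ ?_
      rw [HB.map_id]
      exact rChi_one
    · rw [if_neg hab, if_neg hab]
      have h4 : rChi HB ∘ₗ (HB.map (0 : 𝟙_ A ⟶ 𝟙_ A)).hom = 0 := by
        rw [Functor.map_zero]
        ext x
        exact map_zero (rChi HB)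
      rw [h4]
      exact hz' _ _
  have hsumL : ∀ (s : Finset (Fin r)) (x : Fin r → HdR.obj (U ⊗ V))
      (σ : Module.Dual ℚ (HB.obj (U ⊗ V))),
      asym HdR HB (Gen.tensor hU hV) (∑ a ∈ s, x a) σ =
        ∑ a ∈ s, asym HdR HB (Gen.tensor hU hV) (x a) σ := by
    classical
    intro s x σ
    induction s using Finset.induction_on with
    | empty => rw [Finset.sum_empty, Finset.sum_empty]; exact hz _ _
    | insert a s ha ih => rw [Finset.sum_insert ha, Finset.sum_insert ha, hadd, ih]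
  have hsumR : ∀ (s : Finset (Fin r)) (x : HdR.obj (U ⊗ V))
      (σ : Fin r → Module.Dual ℚ (HB.obj (U ⊗ V))),
      asym HdR HB (Gen.tensor hU hV) x (∑ a ∈ s, σ a) =
        ∑ a ∈ s, asym HdR HB (Gen.tensor hU hV) x (σ a) := by
    classical
    intro s x σ
    induction s using Finset.induction_on with
    | empty => rw [Finset.sum_empty, Finset.sum_empty]; exact hz' _ _
    | insert a s ha ih => rw [Finset.sum_insert ha, Finset.sum_insert ha, haddr, ih]
  refine ⟨∑ a, FibreFunctor.mul U V (ω a) (u a), ?_, ∑ b, tdual HB (γ b) (w b), ?_⟩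
  · refine Submodule.sum_mem _ fun a _ => ?_
    have h1 := one_mulF g 0 0 (hω a) (hu a)
    rwa [add_zero] at h1
  · rw [hsumL]
    refine Finset.sum_congr rfl fun a _ => ?_
    rw [hsumR]
    have h1 : ∀ b ∈ (Finset.univ : Finset (Fin r)),
        asym HdR HB (Gen.tensor hU hV) (FibreFunctor.mul U V (ω a) (u a))
          (tdual HB (γ b) (w b)) =
        if a = b then asym HdR HB hU (ω a) (γ b) else 0 := by
      intro b _
      rw [← hmul hU hV (Gen.tensor hU hV) (ω a) (u a) (γ b) (w b), hδ a b]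
      by_cases hab : a = b
      · rw [if_pos hab, if_pos hab, mul_one]
      · rw [if_neg hab, if_neg hab, mul_zero]
    rw [Finset.sum_congr rfl h1, Finset.sum_ite_eq, if_pos (Finset.mem_univ a)]

end

end Pool.Agent.Lib.MP_ae0f86_nt
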