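import Pool.Agent.Lib.MP_ae0f86_nt.S.Stm

/-!
# MP_ae0f86_nt : the grading of the formal period algebra
-/

set_option autoImplicit false

universe v u

open CategoryTheory CategoryTheory.Limits Opposite MonoidalCategory

namespace Pool.Agent.Lib.MP_ae0f86_nt

noncomputable section

attribute [local instance] CategoryTheory.Abelian.hasFiniteBiproducts

variable {A : Type u} [Category.{v} A] [Abelian A] [Linear ℚ A] [MonoidalCategory A]
  [SymmetricCategory A] [RigidCategory A] {HdR : A ⥤ ModuleCat.{0} QBar}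
  {HB : A ⥤ ModuleCat.{0} ℚ} [FibreFunctor HdR] [FibreFunctor HB]

omit [Linear ℚ A] [RigidCategory A] in
private theorem ops_lift (g : TensorGrading HdR) (S : A → Prop) (p : ℤ) :
    Submodule.span QBar {r | LinRel HdR HB S r} ≤ LinearMap.ker
      (Finsupp.linearCombination QBar
        (fun s : Symb HdR HB S => asym HdR HB s.mem (g.pr p s.N s.ω) s.σ)) := by
  obtain ⟨a1, a2, a3, a4, a5, -, -⟩ := a_arel HdR HB S
  rw [Submodule.span_le]
  rintro r (⟨N, hN, ω, ω', σ⟩ | ⟨N, hN, a, ω, σ⟩ | ⟨N, hN, ω, σ, σ'⟩ | ⟨N, hN, q, ω, σ⟩ |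
      ⟨N, N', hN, hN', f, ω, σ'⟩)
  · simp only [SetLike.mem_coe, LinearMap.mem_ker, map_sub, Finsupp.linearCombination_single,
      one_smul, map_add]
    rw [a1]
    abel
  · simp only [SetLike.mem_coe, LinearMap.mem_ker, map_sub, map_smul,
      Finsupp.linearCombination_single, one_smul]
    rw [a2, sub_self]
  · simp only [SetLike.mem_coe, LinearMap.mem_ker, map_sub, Finsupp.linearCombination_single,
      one_smul]
    rw [a3]
    abel
  · simp only [SetLike.mem_coe, LinearMap.mem_ker, map_sub, map_smul,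
      Finsupp.linearCombination_single, one_smul]
    rw [a4, sub_self]
  · simp only [SetLike.mem_coe, LinearMap.mem_ker, map_sub, Finsupp.linearCombination_single,
      one_smul]
    rw [g.nat]
    erw [a5 hN hN' f (g.pr p N ω) σ']
    rw [sub_self]

omit [Linear ℚ A] in
private theorem ops_sum {M : A} {N : A} (hN : Gen M N) (σ : Module.Dual ℚ (HB.obj N))
    (s : Finset ℤ) (w : ℤ → HdR.obj N) :
    ∑ p ∈ s, asym HdR HB hN (w p) σ = asym HdR HB hN (∑ p ∈ s, w p) σ := by
  obtain ⟨a1, -, -, -, -, a6, -⟩ := a_arel HdR HB (Gen M)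
  classical
  induction s using Finset.induction_on with
  | empty => rw [Finset.sum_empty, Finset.sum_empty, a6]
  | insert a s ha ih => rw [Finset.sum_insert ha, Finset.sum_insert ha, a1, ih]

omit [Linear ℚ A] in
theorem p_siops : S_siops (A := A) HdR HB := by
  intro g M
  have hG : TClosed (Gen M) := a_genclosed.1 M
  let e : FP HdR HB (Gen M) ≃ₗ[QBar] PerAlg HdR HB (Gen M) :=
    LinearEquiv.ofBijective (toPerAlg HdR HB (Gen M)) (a_fpring HdR HB (Gen M) hG)
  have key : ∀ (p : ℤ) {N : A} (hN : Gen M N) (ω : HdR.obj N) (σ : Module.Dual ℚ (HB.obj N)),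
      (Submodule.liftQ _ _ (ops_lift g (Gen M) p) ∘ₗ e.symm.toLinearMap)
        (asym HdR HB hN ω σ) = asym HdR HB hN (g.pr p N ω) σ := by
    intro p N hN ω σ
    have h1 : e.symm (asym HdR HB hN ω σ) = sym HdR HB hN ω σ := by
      rw [LinearEquiv.symm_apply_eq]
      exact ((a_algrel HdR HB (Gen M)).1 hN ω σ).symm
    rw [LinearMap.comp_apply, LinearEquiv.coe_coe, h1]
    unfold sym
    erw [Submodule.liftQ_apply, Finsupp.linearCombination_single, one_smul]
  refine ⟨fun p => Submodule.liftQ _ _ (ops_lift g (Gen M) p) ∘ₗ e.symm.toLinearMap,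
    fun p N hN ω σ => key p hN ω σ, ?_⟩
  intro x
  obtain ⟨N, hN, ω, σ, rfl⟩ := r_sym M x
  obtain ⟨s, hs1, hs2⟩ := g.sum N ω
  obtain ⟨-, -, -, -, -, a6, -⟩ := a_arel HdR HB (Gen M)
  refine ⟨s, fun p hp => ?_, ?_⟩
  · rw [key p hN ω σ, hs1 p hp, a6]
  · rw [Finset.sum_congr rfl fun p _ => key p hN ω σ, ops_sum hN σ s (fun p => g.pr p N ω), hs2]

end

end Pool.Agent.Lib.MP_ae0f86_nt
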