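import Pool.Agent.Lib.MP_ae0f86_nt.S.Stm

/-!
# MP_ae0f86_nt : single integrals, the pairing of the periods of `N` and of its dual
-/

set_option autoImplicit false

universe v u

open CategoryTheory CategoryTheory.Limits Opposite MonoidalCategory

namespace Pool.Agent.Lib.MP_ae0f86_nt

noncomputable section

attribute [local instance] CategoryTheory.Abelian.hasFiniteBiproducts

variable {A : Type u} [Category.{v} A] [Abelian A] [Linear ℚ A] [MonoidalCategory A]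
  [SymmetricCategory A] [RigidCategory A] {HdR : A ⥤ ModuleCat.{0} QBar}
  {HB : A ⥤ ModuleCat.{0} ℚ} [FibreFunctor HdR] [FibreFunctor HB]

theorem p_sipair : S_sipair HdR HB := by
  intro c M hss N hN x hx hx0
  have hac : IsAlgClosed QBar := (algebraicClosure.isAlgClosure ℚ ℂ).isAlgClosed
  have hft := a_fintype HdR HB M
  obtain ⟨r, e, he⟩ := a_pdec HdR HB M
  have hG : TClosed (Gen M) := a_genclosed.1 M
  have h1 : ∃ s, s * x ∉ rQ HdR HB M (𝟙_ A) := by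
    by_contra hs
    push Not at hs
    exact hx0 (ring_core (K := QBar) p_nullst he (rQ HdR HB M (𝟙_ A)) (rQ_one c hss)
      (rQ_trans M (𝟙_ A)) _ hs)
  obtain ⟨s, hs⟩ := h1
  obtain ⟨Y, hY, η, τ, rfl⟩ := r_sym M s
  -- split off the part of `Y` in the linear category of the dual
  obtain ⟨Y₀, Y₁, hY₀, hY₁, ⟨φ⟩⟩ := ss_splitsAlong HB FibreFunctor.finite hss (Lin (Nᘁ))
    (a_lincl.1 (Nᘁ)) Y hY
  have gD : Gen M (Nᘁ) := Gen.dual hN
  have gY₀ : Gen M Y₀ := by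
    have : Mono (biprod.inl ≫ φ.inv : Y₀ ⟶ Y) := mono_comp _ _
    exact Gen.sub (biprod.inl ≫ φ.inv : Y₀ ⟶ Y) hY
  have gY₁ : Gen M Y₁ := by
    have : Mono (biprod.inr ≫ φ.inv : Y₁ ⟶ Y) := mono_comp _ _
    exact Gen.sub (biprod.inr ≫ φ.inv : Y₁ ⟶ Y) hY
  rw [r_split HdR HB hG.toClosed hY gY₀ gY₁ φ η τ, add_mul] at hs
  have horth : Orthogonal (𝟙_ A) (N ⊗ Y₁) := by
    refine r_orth_unit HB hss (Gen.tensor hN gY₁) fun f => ?_
    let E := tensorLeftHomEquiv (𝟙_ A) N (Nᘁ) Y₁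
    have hl : Lin (Nᘁ) (Nᘁ ⊗ 𝟙_ A) :=
      (a_lincl.1 (Nᘁ)).sub (ρ_ (Nᘁ)).hom (a_lincl.2.1 (Nᘁ))
    have h2 : E.symm f = E.symm 0 := by
      rw [hY₁ _ hl (E.symm f), hY₁ _ hl (E.symm 0)]
    exact E.symm.injective h2
  have hY1Q : ∀ η' τ', asym HdR HB gY₁ η' τ' * x ∈ rQ HdR HB M (𝟙_ A) := by
    intro η' τ'
    refine Submodule.span_induction
      (p := fun y _ => asym HdR HB gY₁ η' τ' * y ∈ rQ HdR HB M (𝟙_ A)) ?_ ?_ ?_ ?_ hx
    · rintro _ ⟨ω, σ, rfl⟩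
      rw [mul_comm, (a_algrel HdR HB (Gen M)).2.1 hN gY₁ (Gen.tensor hN gY₁)]
      exact ⟨_, _, _, _, horth, rfl⟩
    · rw [mul_zero]
      exact Submodule.zero_mem _
    · intro a b _ _ ha hb
      rw [mul_add]
      exact Submodule.add_mem _ ha hb
    · intro a b _ hb
      rw [mul_smul_comm]
      exact Submodule.smul_mem _ _ hb
  have h3 : asym HdR HB gY₀ ((HdR.map (φ.hom ≫ biprod.fst)).hom η)
      (τ ∘ₗ (HB.map (biprod.inl ≫ φ.inv)).hom) * x ∉ rQ HdR HB M (𝟙_ A) :=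
    fun h4 => hs (Submodule.add_mem _ h4 (hY1Q _ _))
  have h4 : asym HdR HB gY₀ ((HdR.map (φ.hom ≫ biprod.fst)).hom η)
      (τ ∘ₗ (HB.map (biprod.inl ≫ φ.inv)).hom) ∈ fw HdR HB gD :=
    a_fwlin HdR HB hG.toClosed gY₀ gD hY₀ (Submodule.subset_span ⟨_, _, rfl⟩)
  exact ⟨_, h4, h3⟩

end

end Pool.Agent.Lib.MP_ae0f86_nt
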