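import Pool.Agent.Lib.MP_ae0f86_nt.S.Stm

/-!
# MP_ae0f86_nt : Q1 and the independence of the periods of the powers
-/

set_option autoImplicit false

open CategoryTheory CategoryTheory.Limits Opposite MonoidalCategory

universe v u

namespace Pool.Agent.Lib.MP_ae0f86_nt

noncomputable section

attribute [local instance] CategoryTheory.Abelian.hasFiniteBiproducts

/-- A linear map which preserves the dimension of a finite dimensional subspace is injective
on it. -/
private theorem q1_lin {K E F : Type*} [Field K] [AddCommGroup E] [Module K E]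
    [AddCommGroup F] [Module K F] (f : E →ₗ[K] F) (p : Submodule K E) [Module.Finite K p]
    (h : Module.finrank K (p.map f) = Module.finrank K p) : ∀ x ∈ p, f x = 0 → x = 0 := by
  have h1 := LinearMap.finrank_range_add_finrank_ker (f.domRestrict p)
  rw [LinearMap.range_domRestrict, h] at h1
  have h2 : Module.finrank K (LinearMap.ker (f.domRestrict p)) = 0 := by omega
  have h3 : LinearMap.ker (f.domRestrict p) = ⊥ := Submodule.finrank_eq_zero.1 h2
  intro x hx hx0
  have h4 : (⟨x, hx⟩ : p) ∈ LinearMap.ker (f.domRestrict p) := hx0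
  rw [h3, Submodule.mem_bot] at h4
  exact congrArg Subtype.val h4

section Main

variable {A : Type u} [Category.{v} A] [Abelian A] [Linear ℚ A] [MonoidalCategory A]
  [SymmetricCategory A] [RigidCategory A] {HdR : A ⥤ ModuleCat.{0} QBar}
  {HB : A ⥤ ModuleCat.{0} ℚ} [FibreFunctor HdR] [FibreFunctor HB]

private theorem q1_inj (c : Comparison HdR HB) {T N : A} (hN : Gen T N) :
    independent c N = expected HB N ↔
      ∀ y ∈ fw HdR HB hN, c.evAlg (Gen T) y = 0 → y = 0 := by
  have h1 := a_fwev c hN
  have h2 := a_fwdim c (a_genclosed.1 T) hN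
  have hfin := a_fwfin HdR HB hN
  rw [independent, expected, ← h1, ← h2]
  constructor
  · intro h
    exact q1_lin (c.evAlg (Gen T)).toLinearMap _ h
  · intro h
    exact finrank_map_of_inj _ _ h

theorem p_siq1 (c : Comparison HdR HB) : S_siq1 c := by
  intro T h1
  have gTn : ∀ n, Gen T (tpow T n) := fun n => genpow_mem T n
  constructor
  · intro hpc n
    rw [q1_inj c (gTn n)]
    intro y _ hy0
    exact (a_q1 c T).1 hpc (by rw [hy0, map_zero])
  · intro h
    rw [a_q1 c T, injective_iff_map_eq_zero]
    intro x hx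
    obtain ⟨-, ⟨δ, hδ, -, hloc⟩, hpow⟩ := a_fwgen2 HdR HB T h1
    obtain ⟨m, n, hmn⟩ := hloc x
    have e1 : δ ^ m * x ∈ fw HdR HB (genpow_mem T n) := by
      rw [hpow n]
      exact hmn
    have e3 := (q1_inj c (gTn n)).1 (h n) _ e1 (by rw [map_mul, hx, mul_zero])
    exact ((hδ.pow m).mul_right_eq_zero).1 e3

end Main

end

end Pool.Agent.Lib.MP_ae0f86_nt
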