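import Pool.Agent.Lib.MP_ae0f86_nt.S.Stm

/-!
# MP_ae0f86_nt, piece [SI twist]: twisting by powers of the Lefschetz object
-/

set_option autoImplicit false

open CategoryTheory CategoryTheory.Limits Opposite MonoidalCategory

universe v u

namespace Pool.Agent.Lib.MP_ae0f86_nt

noncomputable section

attribute [local instance] CategoryTheory.Abelian.hasFiniteBiproducts

section Gen

variable {A : Type u} [Category.{v} A] [Abelian A] [MonoidalCategory A] [SymmetricCategory A]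

omit [Abelian A] in
/-- the powers of an invertible object are invertible -/
private theorem twist_inv {L t : A} (φ : L ⊗ t ≅ 𝟙_ A) (m : ℕ) :
    Nonempty (tpow L m ⊗ tpow t m ≅ 𝟙_ A) := by
  induction m with
  | zero => exact ⟨ρ_ _⟩
  | succ m ih =>
    obtain ⟨e⟩ := ih
    let μ : (tpow L m ⊗ L) ⊗ (tpow t m ⊗ t) ≅ (tpow L m ⊗ tpow t m) ⊗ (L ⊗ t) :=
      ⟨tensorμ _ _ _ _, tensorδ _ _ _ _, tensorμ_tensorδ _ _ _ _, tensorδ_tensorμ _ _ _ _⟩
    exact ⟨μ ≪≫ (e ⊗ᵢ φ) ≪≫ λ_ _⟩

/-- the fibres of an invertible object are lines -/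
private theorem twist_rank {F : Type} [Field F] (H : A ⥤ ModuleCat.{0} F) [FibreFunctor H]
    {L L' : A} (i : L ⊗ L' ≅ 𝟙_ A) : Module.finrank F (H.obj L) = 1 := by
  have e1 := (LinearEquiv.ofBijective _ (FibreFunctor.bij (H := H) L L')).finrank_eq
  have e2 := ((H.mapIso i).toLinearEquiv).finrank_eq
  have hb : Function.Bijective
      (LinearMap.toSpanSingleton F (H.obj (𝟙_ A)) (FibreFunctor.one (H := H))) :=
    FibreFunctor.one_bij (H := H)
  have e3 := (LinearEquiv.ofBijective _ hb).finrank_eq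
  rw [Module.finrank_self] at e3
  rw [Module.finrank_tensorProduct] at e1
  have e4 : Module.finrank F (H.obj L) * Module.finrank F (H.obj L') = 1 := by
    rw [e1, e2, ← e3]
  exact Nat.eq_one_of_mul_eq_one_right e4

private theorem twist_span {F : Type} [Field F] {V : Type*} [AddCommGroup V] [Module F V]
    (h : Module.finrank F V = 1) {v : V} (hv : v ≠ 0) (w : V) : ∃ a : F, w = a • v := by
  obtain ⟨a, ha⟩ := (finrank_eq_one_iff_of_nonzero' v hv).1 h w
  exact ⟨a, ha.symm⟩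

/-- `x ⊗ y` is zero only if `x` or `y` is zero -/
private theorem twist_mul_eq_zero {F : Type} [Field F] (H : A ⥤ ModuleCat.{0} F)
    [FibreFunctor H] {M N : A} {x : H.obj M} {y : H.obj N}
    (h : FibreFunctor.mul (H := H) M N x y = 0) (hy : y ≠ 0) : x = 0 := by
  rw [← Module.forall_dual_apply_eq_zero_iff F x]
  intro σ
  by_contra hσ
  obtain ⟨τ, hτ⟩ : ∃ τ : Module.Dual F (H.obj N), τ y ≠ 0 := by
    by_contra hcon
    push Not at hcon
    exact hy ((Module.forall_dual_apply_eq_zero_iff F y).1 hcon)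
  have h5 : x ⊗ₜ[F] y = 0 := by
    apply (FibreFunctor.bij (H := H) M N).1
    rw [map_zero, TensorProduct.lift.tmul, h]
  have h6 : TensorProduct.dualDistrib F (H.obj M) (H.obj N) (σ ⊗ₜ τ) (x ⊗ₜ[F] y) = σ x * τ y :=
    TensorProduct.dualDistrib_apply _ _ _ _
  rw [h5, map_zero] at h6
  exact mul_ne_zero hσ hτ h6.symm

/-- elements of `H(M ⊗ N)` with `H(N)` a line -/
private theorem twist_right {F : Type} [Field F] (H : A ⥤ ModuleCat.{0} F)
    [FibreFunctor H] {M N : A} {y : H.obj N} (hy : ∀ w : H.obj N, ∃ a : F, w = a • y)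
    (z : H.obj (M ⊗ N)) : ∃ x : H.obj M, z = FibreFunctor.mul (H := H) M N x y := by
  obtain ⟨t, rfl⟩ := (FibreFunctor.bij (H := H) M N).2 z
  induction t using TensorProduct.induction_on with
  | zero => exact ⟨0, by rw [map_zero, map_zero, LinearMap.zero_apply]⟩
  | add a b ha hb =>
    obtain ⟨x, hx⟩ := ha
    obtain ⟨x', hx'⟩ := hb
    exact ⟨x + x', by rw [map_add, hx, hx', map_add, LinearMap.add_apply]⟩
  | tmul a b =>
    obtain ⟨c, rfl⟩ := hy b
    exact ⟨c • a, by rw [TensorProduct.lift.tmul, map_smul, map_smul, LinearMap.smul_apply]⟩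

/-- elements of `H(M ⊗ N)` with `H(M)` a line -/
private theorem twist_left {F : Type} [Field F] (H : A ⥤ ModuleCat.{0} F)
    [FibreFunctor H] {M N : A} {x : H.obj M} (hx : ∀ w : H.obj M, ∃ a : F, w = a • x)
    (z : H.obj (M ⊗ N)) : ∃ y : H.obj N, z = FibreFunctor.mul (H := H) M N x y := by
  obtain ⟨t, rfl⟩ := (FibreFunctor.bij (H := H) M N).2 z
  induction t using TensorProduct.induction_on with
  | zero => exact ⟨0, by rw [map_zero, map_zero]⟩
  | add a b ha hb =>
    obtain ⟨y, hy⟩ := ha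
    obtain ⟨y', hy'⟩ := hb
    exact ⟨y + y', by rw [map_add, hy, hy', map_add]⟩
  | tmul a b =>
    obtain ⟨c, rfl⟩ := hx a
    exact ⟨c • b, by rw [TensorProduct.lift.tmul, map_smul, map_smul, LinearMap.smul_apply]⟩

private theorem twist_one_ne {F : Type} [Field F] (H : A ⥤ ModuleCat.{0} F)
    [FibreFunctor H] : (FibreFunctor.one : H.obj (𝟙_ A)) ≠ 0 := by
  intro h0
  have h3 := (FibreFunctor.one_bij (H := H)).1
  have h4 : (1 : F) = 0 := h3 (by
    show (1 : F) • (FibreFunctor.one (H := H)) = (0 : F) • (FibreFunctor.one (H := H))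
    rw [h0, smul_zero, smul_zero])
  exact one_ne_zero h4

omit [Abelian A] [MonoidalCategory A] [SymmetricCategory A] in
private theorem twist_iso_inj {F : Type} [Field F] (H : A ⥤ ModuleCat.{0} F) {M N : A}
    (e : M ≅ N) {x : H.obj M} (h : (H.map e.hom).hom x = 0) : x = 0 := by
  have h4 : ((H.mapIso e).toLinearEquiv) x = 0 := h
  exact (LinearEquiv.map_eq_zero_iff _).mp h4

omit [Abelian A] [MonoidalCategory A] [SymmetricCategory A] in
private theorem twist_inv_hom {F : Type} [Field F] (H : A ⥤ ModuleCat.{0} F) {M N : A}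
    (e : M ≅ N) (x : H.obj M) : (H.map e.inv).hom ((H.map e.hom).hom x) = x := by
  rw [← LinearMap.comp_apply, ← ModuleCat.hom_comp, ← H.map_comp, e.hom_inv_id, H.map_id]
  rfl

omit [Abelian A] [MonoidalCategory A] [SymmetricCategory A] in
private theorem twist_hom_inv {F : Type} [Field F] (H : A ⥤ ModuleCat.{0} F) {M N : A}
    (e : M ≅ N) (x : H.obj N) : (H.map e.hom).hom ((H.map e.inv).hom x) = x := by
  rw [← LinearMap.comp_apply, ← ModuleCat.hom_comp, ← H.map_comp, e.inv_hom_id, H.map_id]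
  rfl

omit [Abelian A] [MonoidalCategory A] [SymmetricCategory A] in
private theorem twist_comp {F : Type} [Field F] (H : A ⥤ ModuleCat.{0} F) {M N P : A}
    (f : M ⟶ N) (g : N ⟶ P) (x : H.obj M) :
    (H.map (f ≫ g)).hom x = (H.map g).hom ((H.map f).hom x) := by
  rw [H.map_comp, ModuleCat.hom_comp, LinearMap.comp_apply]

private theorem twist_whisker {F : Type} [Field F] (H : A ⥤ ModuleCat.{0} F)
    [FibreFunctor H] {M M' : A} (f : M ⟶ M') (N : A) (x : H.obj M) (y : H.obj N) :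
    (H.map (f ▷ N)).hom (FibreFunctor.mul M N x y) =
      FibreFunctor.mul M' N ((H.map f).hom x) y := by
  have h := FibreFunctor.mul_nat (H := H) f (𝟙 N) x y
  rw [tensorHom_id, H.map_id] at h
  exact h

/-- morphisms `U ⊗ N ⟶ N` for an invertible object `N` -/
private theorem twist_pull {F : Type} [Field F] (H : A ⥤ ModuleCat.{0} F) [FibreFunctor H]
    {U N : A} (I : A) (e : N ⊗ I ≅ 𝟙_ A) {y : H.obj N} (hy : ∀ w : H.obj N, ∃ a : F, w = a • y)
    {x : H.obj U} (hx : ∀ f : U ⟶ 𝟙_ A, (H.map f).hom x = 0) (h : U ⊗ N ⟶ N) :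
    (H.map h).hom (FibreFunctor.mul U N x y) = 0 := by
  obtain ⟨z, hz⟩ := twist_left H hy ((H.map e.inv).hom (FibreFunctor.one (H := H)))
  have hz0 : z ≠ 0 := by
    rintro rfl
    rw [map_zero] at hz
    have h1 := twist_hom_inv H e (FibreFunctor.one (H := H))
    rw [hz, map_zero] at h1
    exact twist_one_ne H h1.symm
  let φ : U ⟶ 𝟙_ A := (ρ_ U).inv ≫ (U ◁ e.inv) ≫ (α_ U N I).inv ≫ (h ▷ I) ≫ e.hom
  have h1 := hx φ
  have hρ : (H.map (ρ_ U).inv).hom x = FibreFunctor.mul U (𝟙_ A) x (FibreFunctor.one (H := H)) := by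
    have h2 : (H.map (ρ_ U).hom).hom (FibreFunctor.mul U (𝟙_ A) x (FibreFunctor.one (H := H))) =
        x := by
      have h3 : (ρ_ U).hom = (β_ U (𝟙_ A)).hom ≫ (λ_ U).hom := by
        rw [braiding_leftUnitor]
      rw [h3, twist_comp, FibreFunctor.mul_comm, FibreFunctor.one_mul]
    have h4 := twist_inv_hom H (ρ_ U) (FibreFunctor.mul U (𝟙_ A) x (FibreFunctor.one (H := H)))
    rw [h2] at h4
    exact h4
  have hU : (H.map (U ◁ e.inv)).hom (FibreFunctor.mul U (𝟙_ A) x (FibreFunctor.one (H := H))) =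
      FibreFunctor.mul U (N ⊗ I) x (FibreFunctor.mul N I y z) := by
    have h2 := FibreFunctor.mul_nat (H := H) (𝟙 U) e.inv x (FibreFunctor.one (H := H))
    rw [id_tensorHom, H.map_id, hz] at h2
    exact h2
  have hα : (H.map (α_ U N I).inv).hom (FibreFunctor.mul U (N ⊗ I) x (FibreFunctor.mul N I y z)) =
      FibreFunctor.mul (U ⊗ N) I (FibreFunctor.mul U N x y) z := by
    have h2 := twist_inv_hom H (α_ U N I) (FibreFunctor.mul (U ⊗ N) I (FibreFunctor.mul U N x y) z)
    rw [FibreFunctor.mul_assoc] at h2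
    exact h2
  have h2 : (H.map φ).hom x = (H.map e.hom).hom
      (FibreFunctor.mul N I ((H.map h).hom (FibreFunctor.mul U N x y)) z) := by
    show (H.map ((ρ_ U).inv ≫ (U ◁ e.inv) ≫ (α_ U N I).inv ≫ (h ▷ I) ≫ e.hom)).hom x = _
    rw [twist_comp, twist_comp, twist_comp, twist_comp, hρ, hU, hα, twist_whisker]
  rw [h1] at h2
  exact twist_mul_eq_zero H (twist_iso_inj H e h2.symm) hz0

end Gen

section Main

variable {A : Type u} [Category.{v} A] [Abelian A] [Linear ℚ A] [MonoidalCategory A]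
  [SymmetricCategory A] [RigidCategory A] {HdR : A ⥤ ModuleCat.{0} QBar}
  {HB : A ⥤ ModuleCat.{0} ℚ} [FibreFunctor HdR] [FibreFunctor HB]

omit [Linear ℚ A] [RigidCategory A] in
/-- the period is not zero -/
private theorem twist_period {c : Comparison HdR HB} {g : TensorGrading HdR}
    (Λ : Lefschetz c g) : Λ.period ≠ 0 := by
  intro h0
  apply Λ.form_ne
  have h1 : Module.finrank ℚ (Module.Dual ℚ (HB.obj Λ.L)) = 1 := by
    rw [Subspace.dual_finrank_eq]
    exact twist_rank HB Λ.iso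
  have h2 : c.per Λ.L Λ.form = 0 := by
    refine LinearMap.ext fun σ => ?_
    obtain ⟨a, rfl⟩ := twist_span h1 Λ.cycle_ne σ
    rw [map_smul]
    have h3 : c.per Λ.L Λ.form Λ.cycle = 0 := h0
    rw [h3, smul_zero, LinearMap.zero_apply]
  have h3 : (LinearMap.liftBaseChange ℂ (c.per Λ.L)) ((1 : ℂ) ⊗ₜ[QBar] Λ.form) = 0 := by
    rw [LinearMap.liftBaseChange_tmul, h2, smul_zero]
  have h4 : (1 : ℂ) ⊗ₜ[QBar] Λ.form = 0 := (c.bij Λ.L).1 (by rw [h3, map_zero])
  have h5 : Function.Injective (TensorProduct.mk QBar ℂ (HdR.obj Λ.L) 1) :=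
    Module.FaithfullyFlat.tensorProduct_mk_injective (A := QBar) (B := ℂ) (HdR.obj Λ.L)
  exact h5 (by rw [map_zero]; exact h4)

omit [Linear ℚ A] [RigidCategory A] in
/-- the powers of the form and of the cycle -/
private theorem twist_pow {c : Comparison HdR HB} {g : TensorGrading HdR}
    (Λ : Lefschetz c g) (k : ℕ) : ∃ (x : HdR.obj (tpow Λ.L k)) (σ : Module.Dual ℚ (HB.obj (tpow Λ.L k))),
      c.per (tpow Λ.L k) x σ = Λ.period ^ k ∧ g.pr (k : ℤ) (tpow Λ.L k) x = x := by
  induction k with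
  | zero =>
    refine ⟨(FibreFunctor.one : HdR.obj (𝟙_ A)), rChi HB, ?_, ?_⟩
    · rw [pow_zero]
      exact c.per_one _ rChi_one
    · exact g.one
  | succ k ih =>
    obtain ⟨x, σ, h1, h2⟩ := ih
    refine ⟨FibreFunctor.mul (tpow Λ.L k) Λ.L x Λ.form, tdual HB σ Λ.cycle, ?_, ?_⟩
    · rw [pow_succ, ← h1]
      exact c.per_mul _ _ x Λ.form σ Λ.cycle _ (fun a b => p_algrel_tdual HB a b σ Λ.cycle)
    · have h3 := g.tensor (k : ℤ) 1 (tpow Λ.L k) Λ.L x Λ.form
      rw [h2, Λ.degree] at h3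
      have h4 : ((k + 1 : ℕ) : ℤ) = (k : ℤ) + 1 := by push_cast; ring
      rw [h4]
      exact h3

omit [Linear ℚ A] [RigidCategory A] in
/-- products with homogeneous elements -/
private theorem twist_F {H : A ⥤ ModuleCat.{0} QBar} [FibreFunctor H] (g : TensorGrading H)
    {U N : A} {x : H.obj U} (hx : x ∈ g.F 0 U) {y : H.obj N} {k : ℤ} (hy : g.pr k N y = y) :
    FibreFunctor.mul U N x y ∈ g.F k (U ⊗ N) := by
  intro q hq
  obtain ⟨s, -, hs⟩ := g.sum U x
  have h1 : FibreFunctor.mul (H := H) U N x y =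
      ∑ p ∈ s, FibreFunctor.mul (H := H) U N (g.pr p U x) y := by
    conv_lhs => rw [← hs]
    rw [map_sum, LinearMap.sum_apply]
  rw [h1, map_sum]
  refine Finset.sum_eq_zero fun p _ => ?_
  by_cases hp : p < 0
  · rw [hx p hp, map_zero, LinearMap.zero_apply, map_zero]
  · have h2 := g.tensor p k U N x y
    rw [hy] at h2
    have h3 : g.pr (p + k) (U ⊗ N) (FibreFunctor.mul (H := H) U N (g.pr p U x) y) =
      FibreFunctor.mul (H := H) U N (g.pr p U x) y := h2
    rw [← h3]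
    exact g.orth q (p + k) _ _ (by omega)

omit [Linear ℚ A] [RigidCategory A] in
theorem p_sitwist {c : Comparison HdR HB} {g : TensorGrading HdR} (Λ : Lefschetz c g) :
    S_sitwist Λ := by
  rintro U Y k ⟨ψ⟩
  obtain ⟨ℓ, lam, hper, hdeg⟩ := twist_pow Λ k
  obtain ⟨e⟩ := twist_inv Λ.iso k
  have hP : Λ.period ^ k ≠ 0 := pow_ne_zero _ (twist_period Λ)
  have hℓ : ℓ ≠ 0 := by
    rintro rfl
    rw [map_zero, LinearMap.zero_apply] at hper
    exact hP hper.symm
  have hlam : lam ≠ 0 := by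
    rintro rfl
    rw [map_zero] at hper
    exact hP hper.symm
  have hspan : ∀ w : HdR.obj (tpow Λ.L k), ∃ a : QBar, w = a • ℓ :=
    twist_span (twist_rank HdR e) hℓ
  constructor
  · intro ω γ hω hf h1
    refine ⟨act HdR ψ.hom (FibreFunctor.mul U (tpow Λ.L k) ω ℓ),
      (tdual HB γ lam) ∘ₗ (HB.map ψ.inv).hom, ?_, ?_, ?_⟩
    · intro q hq
      rw [g.nat, twist_F g hω hdeg q hq]
      exact map_zero (HdR.map ψ.hom).hom
    · intro f
      show (HdR.map f).hom ((HdR.map ψ.hom).hom (FibreFunctor.mul U (tpow Λ.L k) ω ℓ)) = 0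
      rw [← twist_comp]
      exact twist_pull HdR _ e hspan hf _
    · show c.per Y ((HdR.map ψ.hom).hom (FibreFunctor.mul U (tpow Λ.L k) ω ℓ)) _ = _
      rw [c.per_nat]
      have h2 : ((tdual HB γ lam) ∘ₗ (HB.map ψ.inv).hom) ∘ₗ (HB.map ψ.hom).hom =
          tdual HB γ lam := by
        refine LinearMap.ext fun z => ?_
        rw [LinearMap.comp_apply, LinearMap.comp_apply, twist_inv_hom]
      rw [h2, c.per_mul _ _ ω ℓ γ lam _ (fun a b => p_algrel_tdual HB a b γ lam), hper]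
      have h3 : c.per U ω γ = 1 := h1
      rw [h3, one_mul]
  · intro ω γ hf h1
    obtain ⟨ω', hω'⟩ := twist_right HdR hspan ((HdR.map ψ.inv).hom ω)
    obtain ⟨b, hb⟩ : ∃ b, lam b = 1 := by
      obtain ⟨b, hb⟩ : ∃ b, lam b ≠ 0 := by
        by_contra hcon
        push Not at hcon
        exact hlam (LinearMap.ext hcon)
      exact ⟨(lam b)⁻¹ • b, by rw [map_smul, smul_eq_mul, inv_mul_cancel₀ hb]⟩
    have hb0 : b ≠ 0 := by
      rintro rfl
      rw [map_zero] at hb
      exact zero_ne_one hb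
    let γ' : Module.Dual ℚ (HB.obj U) :=
      (γ ∘ₗ (HB.map ψ.hom).hom) ∘ₗ (FibreFunctor.mul (H := HB) U (tpow Λ.L k)).flip b
    have hω : ω = (HdR.map ψ.hom).hom (FibreFunctor.mul U (tpow Λ.L k) ω' ℓ) := by
      rw [← hω', twist_hom_inv]
    refine ⟨ω', γ', ?_, ?_⟩
    · intro φ
      obtain ⟨a, ha⟩ := (FibreFunctor.one_bij (H := HdR)).2 ((HdR.map φ).hom ω')
      have ha' : a • (FibreFunctor.one : HdR.obj (𝟙_ A)) = (HdR.map φ).hom ω' := ha
      have h2 := hf (ψ.inv ≫ (φ ▷ tpow Λ.L k) ≫ (λ_ _).hom)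
      have h3 : (HdR.map (ψ.inv ≫ (φ ▷ tpow Λ.L k) ≫ (λ_ _).hom)).hom ω = a • ℓ := by
        rw [twist_comp, twist_comp, hω', twist_whisker, ← ha', map_smul, LinearMap.smul_apply,
          map_smul, FibreFunctor.one_mul]
      have h4 : a • ℓ = 0 := by
        rw [← h3]
        exact h2
      have h5 : a = 0 := (smul_eq_zero.1 h4).resolve_right hℓ
      show (HdR.map φ).hom ω' = 0
      rw [← ha', h5, zero_smul]
    · have h2 : c.per Y ω γ = Λ.period ^ k := h1
      rw [hω, c.per_nat] at h2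
      have h3 : ∀ x y, (γ ∘ₗ (HB.map ψ.hom).hom) (FibreFunctor.mul U (tpow Λ.L k) x y) =
          γ' x * lam y := by
        intro x y
        obtain ⟨a, rfl⟩ := twist_span (twist_rank HB e) hb0 y
        rw [map_smul, map_smul, map_smul, hb]
        show a • γ' x = γ' x * (a • 1)
        rw [smul_eq_mul, smul_eq_mul, mul_one, mul_comm]
      rw [c.per_mul _ _ ω' ℓ γ' lam _ h3, hper] at h2
      exact mul_right_cancel₀ hP (by rw [one_mul]; exact h2)

end Main

end

end Pool.Agent.Lib.MP_ae0f86_nt
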