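import Pool.Agent.Lib.MP_ae0f86_nt.S.Stm

/-!
# MP_ae0f86_nt : single integrals, piece proj
-/

set_option autoImplicit false

open CategoryTheory CategoryTheory.Limits Opposite MonoidalCategory

universe v u

namespace Pool.Agent.Lib.MP_ae0f86_nt

noncomputable section

attribute [local instance] CategoryTheory.Abelian.hasFiniteBiproducts

variable {A : Type u} [Category.{v} A] [Abelian A] [Linear ℚ A] [MonoidalCategory A]
  [SymmetricCategory A] [RigidCategory A] {HdR : A ⥤ ModuleCat.{0} QBar}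
  {HB : A ⥤ ModuleCat.{0} ℚ} [FibreFunctor HdR] [FibreFunctor HB]

theorem p_siproj : S_siproj HdR HB := by
  intro c g M hss U hU ω γ hω hnot h0
  have hG : TClosed (Gen M) := a_genclosed.1 M
  obtain ⟨V₀, V₁, hV₀, hV₁, ⟨φ⟩⟩ := ss_splits HB (M₀ := 𝟙_ A) hss U hU
  have gV₀ : Gen M V₀ := a_genclosed.2.2.2 M (𝟙_ A) V₀ Gen.unit hV₀
  have hmono : Mono (biprod.inr ≫ φ.inv : V₁ ⟶ U) := mono_comp _ _
  have gV₁ : Gen M V₁ := Gen.sub (biprod.inr ≫ φ.inv : V₁ ⟶ U) hU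
  have h1 := r_split HdR HB hG.toClosed hU gV₀ gV₁ φ ω γ
  obtain ⟨a, ha⟩ := r_scalar hG hV₀ gV₀ ((HdR.map (φ.hom ≫ biprod.fst)).hom ω)
    (γ ∘ₗ (HB.map (biprod.inl ≫ φ.inv)).hom)
  rw [ha] at h1
  have ha0 : a ≠ 0 := by
    rintro rfl
    rw [map_zero, zero_add] at h1
    exact hnot ⟨V₁, gV₁, _, _, hV₁, h1⟩
  have h2 := congrArg (c.evAlg (Gen M)) h1
  rw [map_add, AlgHom.commutes, r_evAlg, r_evAlg] at h2
  have h3 : algebraMap QBar ℂ a + c.per V₁ ((HdR.map (φ.hom ≫ biprod.snd)).hom ω)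
      (γ ∘ₗ (HB.map (biprod.inr ≫ φ.inv)).hom) = 0 := h2.symm.trans h0
  have haC : algebraMap QBar ℂ a ≠ 0 := fun h => ha0 ((algebraMap QBar ℂ).injective
    (by rw [h, map_zero]))
  refine ⟨(-a)⁻¹ • (HdR.map ((φ.hom ≫ biprod.snd) ≫ (biprod.inr ≫ φ.inv))).hom ω, ?_, γ, ?_, ?_⟩
  · refine Submodule.smul_mem _ _ fun q hq => ?_
    have h4 := g.nat q ((φ.hom ≫ biprod.snd) ≫ (biprod.inr ≫ φ.inv)) ω
    rw [hω q hq] at h4
    exact h4.trans (map_zero _)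
  · intro f
    have h5 : (biprod.inr ≫ φ.inv) ≫ f = 0 := (hV₁ (𝟙_ A) Gen.unit).2 _
    show (HdR.map f).hom ((-a)⁻¹ • (HdR.map ((φ.hom ≫ biprod.snd) ≫
      (biprod.inr ≫ φ.inv))).hom ω) = 0
    rw [map_smul]
    have h6 : (HdR.map f).hom ((HdR.map ((φ.hom ≫ biprod.snd) ≫
      (biprod.inr ≫ φ.inv))).hom ω) = (HdR.map (((φ.hom ≫ biprod.snd) ≫
      (biprod.inr ≫ φ.inv)) ≫ f)).hom ω := by
      rw [HdR.map_comp _ f]
      rfl
    rw [h6, Category.assoc, h5, comp_zero, HdR.map_zero]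
    exact smul_zero _
  · show c.per U ((-a)⁻¹ • (HdR.map ((φ.hom ≫ biprod.snd) ≫ (biprod.inr ≫ φ.inv))).hom ω) γ = 1
    rw [map_smul, LinearMap.smul_apply, HdR.map_comp _ (biprod.inr ≫ φ.inv)]
    have h7 : c.per U ((HdR.map (φ.hom ≫ biprod.snd) ≫ HdR.map (biprod.inr ≫ φ.inv)).hom ω) γ =
        c.per V₁ ((HdR.map (φ.hom ≫ biprod.snd)).hom ω)
          (γ ∘ₗ (HB.map (biprod.inr ≫ φ.inv)).hom) :=
      c.per_nat (biprod.inr ≫ φ.inv) _ γ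
    rw [h7]
    have h8 : c.per V₁ ((HdR.map (φ.hom ≫ biprod.snd)).hom ω)
      (γ ∘ₗ (HB.map (biprod.inr ≫ φ.inv)).hom) = -algebraMap QBar ℂ a := by
      linear_combination h3
    rw [h8, Algebra.smul_def, map_inv₀, map_neg]
    exact inv_mul_cancel₀ (neg_ne_zero.2 haC)

end

end Pool.Agent.Lib.MP_ae0f86_nt
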